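import Pool.Agent.Helper13.FacComp.Word

namespace Pool.Agent.Helper13.FacComp

open Finset

section

variable {k n0 : ℕ}

lemma mod_inj {n0 a b r : ℕ} (ha : a < n0) (hb : b < n0) (h : (r + a) % n0 = (r + b) % n0) : a = b := by
  have h1 : a ≡ b [MOD n0] := Nat.ModEq.add_left_cancel' r h
  rwa [Nat.ModEq, Nat.mod_eq_of_lt ha, Nat.mod_eq_of_lt hb] at h1

/-- at most `k` bits are visible in a window of length at most one block -/
lemma vis_card_le {r m : ℕ} (hm : m ≤ n0) : (vis k n0 r m).card ≤ k := by
  calc (vis k n0 r m).card ≤ (range k).card := by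
        apply Finset.card_le_card_of_injOn (fun k' => (r + k') % n0)
        · intro k' hk'
          simp only [vis, Finset.coe_filter, Finset.mem_range, Set.mem_ofPred_eq] at hk'
          simp only [Finset.coe_range, Set.mem_Iio]
          exact hk'.2
        · intro a ha b hb h
          simp only [vis, Finset.coe_filter, Finset.mem_range, Set.mem_ofPred_eq] at ha hb
          exact mod_inj (by omega) (by omega) h
    _ = k := Finset.card_range k

/-- visible bits before a bit position -/
lemma vis_card_le_of_next {r m : ℕ} (hk : m + k ≤ n0) (hr : (r + m) % n0 < k) :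
    (vis k n0 r m).card ≤ (r + m) % n0 := by
  set ρ := (r + m) % n0 with hρ
  have hn0 : 0 < n0 := by omega
  calc (vis k n0 r m).card ≤ (range ρ).card := by
        apply Finset.card_le_card_of_injOn (fun k' => (r + k') % n0)
        · intro k' hk'
          simp only [vis, Finset.coe_filter, Finset.mem_range, Set.mem_ofPred_eq] at hk'
          simp only [Finset.coe_range, Set.mem_Iio]
          obtain ⟨h1, h2⟩ := hk'
          -- (r + k') + (m - k') = r + m
          by_contra hc
          have hc' : ρ ≤ (r + k') % n0 := by omega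
          have h3 : ρ = ((r + k') % n0 + (m - k')) % n0 := by
            rw [hρ, Nat.mod_add_mod]
            congr 1
            omega
          have h4 : (r + k') % n0 + (m - k') < n0 := by omega
          rw [Nat.mod_eq_of_lt h4] at h3
          omega
        · intro a ha b hb h
          simp only [vis, Finset.coe_filter, Finset.mem_range, Set.mem_ofPred_eq] at ha hb
          exact mod_inj (by omega) (by omega) h
    _ = ρ := Finset.card_range _

lemma vis_succ (r m : ℕ) : (vis k n0 r (m + 1)).card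
    = (vis k n0 r m).card + if (r + m) % n0 < k then 1 else 0 := by
  unfold vis
  rw [Finset.range_add_one, Finset.filter_insert]
  split_ifs with h
  · rw [Finset.card_insert_of_notMem]
    intro hc
    rw [Finset.mem_filter, Finset.mem_range] at hc
    omega
  · rfl

lemma beta_step {m : ℕ} (hk : m + k ≤ n0) :
    ∑ r ∈ range n0, 2 ^ (vis k n0 r (m + 1)).card ≤ ∑ r ∈ range n0, 2 ^ (vis k n0 r m).card + 2 ^ k := by
  have h1 : ∑ r ∈ range n0, 2 ^ (vis k n0 r (m + 1)).card
      = ∑ r ∈ range n0, 2 ^ (vis k n0 r m).card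
        + ∑ r ∈ (range n0).filter (fun r => (r + m) % n0 < k), 2 ^ (vis k n0 r m).card := by
    rw [Finset.sum_filter, ← Finset.sum_add_distrib]
    apply Finset.sum_congr rfl
    intro r _
    rw [vis_succ]
    split_ifs with h
    · rw [pow_succ]; ring
    · simp
  rw [h1]
  have h2 : ∑ r ∈ (range n0).filter (fun r => (r + m) % n0 < k), 2 ^ (vis k n0 r m).card
      ≤ ∑ r ∈ (range n0).filter (fun r => (r + m) % n0 < k), 2 ^ ((r + m) % n0) := by
    apply Finset.sum_le_sum
    intro r hr
    rw [Finset.mem_filter] at hr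
    exact Nat.pow_le_pow_right (by norm_num) (vis_card_le_of_next hk hr.2)
  have h3 : ∑ r ∈ (range n0).filter (fun r => (r + m) % n0 < k), 2 ^ ((r + m) % n0)
      ≤ ∑ ρ ∈ range k, 2 ^ ρ := by
    have h4 : ∑ r ∈ (range n0).filter (fun r => (r + m) % n0 < k), 2 ^ ((r + m) % n0)
        = ∑ ρ ∈ ((range n0).filter (fun r => (r + m) % n0 < k)).image (fun r => (r + m) % n0), 2 ^ ρ := by
      rw [Finset.sum_image]
      intro a ha b hb h
      rw [Finset.mem_coe, Finset.mem_filter, Finset.mem_range] at ha hb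
      simp only at h
      rw [add_comm a m, add_comm b m] at h
      exact mod_inj ha.1 hb.1 h
    rw [h4]
    apply Finset.sum_le_sum_of_subset
    intro ρ hρ
    rw [Finset.mem_image] at hρ
    obtain ⟨r, hr, rfl⟩ := hρ
    rw [Finset.mem_filter] at hr
    rw [Finset.mem_range]
    exact hr.2
  have h5 : ∑ ρ ∈ range k, 2 ^ ρ < 2 ^ k := Nat.geomSum_lt (by norm_num) (by simp)
  omega

lemma beta_one (hk : k ≤ n0) : ∑ r ∈ range n0, 2 ^ (vis k n0 r 1).card = n0 + k := by
  have h1 : ∀ r ∈ range n0, 2 ^ (vis k n0 r 1).card = 1 + if r < k then 1 else 0 := by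
    intro r hr
    rw [Finset.mem_range] at hr
    rw [vis_succ]
    simp only [vis, Finset.range_zero, Finset.filter_empty, Finset.card_empty, zero_add, add_zero,
      Nat.mod_eq_of_lt hr]
    split_ifs <;> simp
  rw [Finset.sum_congr rfl h1, Finset.sum_add_distrib, Finset.sum_const, Finset.card_range,
    ← Finset.sum_filter, Finset.sum_const]
  have h2 : (range n0).filter (fun r => r < k) = range k := by
    ext r
    rw [Finset.mem_filter, Finset.mem_range, Finset.mem_range]
    omega
  rw [h2, Finset.card_range]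
  simp

lemma beta_small {m : ℕ} (hm : 1 ≤ m) (hk : m + k ≤ n0 + 1) (h2 : n0 + k ≤ 2 ^ k) :
    ∑ r ∈ range n0, 2 ^ (vis k n0 r m).card ≤ m * 2 ^ k := by
  induction m, hm using Nat.le_induction with
  | base => rw [beta_one (by omega)]; omega
  | succ m hm ih =>
    have ih' := ih (by omega)
    have := beta_step (k := k) (n0 := n0) (m := m) (by omega)
    rw [Nat.succ_mul]
    omega

lemma beta_large {m : ℕ} (hm : n0 ≤ m + k) (hm2 : m < 2 * n0) :
    ∑ r ∈ range n0, min (2 ^ (vis k n0 r m).card) (2 ^ (k + 1)) ≤ (m + k) * 2 ^ k := by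
  rcases Nat.le_total m n0 with h | h
  · calc ∑ r ∈ range n0, min (2 ^ (vis k n0 r m).card) (2 ^ (k + 1)) ≤ ∑ r ∈ range n0, 2 ^ k := by
          apply Finset.sum_le_sum
          intro r _
          exact (min_le_left _ _).trans (Nat.pow_le_pow_right (by norm_num) (vis_card_le h))
      _ = n0 * 2 ^ k := by rw [Finset.sum_const, Finset.card_range, smul_eq_mul]
      _ ≤ (m + k) * 2 ^ k := Nat.mul_le_mul_right _ hm
  · classical
    set Rb := (range n0).filter fun r => r < k ∨ 2 * n0 < r + m + 1 with hRb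
    have hcard : Rb.card ≤ m - n0 + k := by
      have hsub : Rb ⊆ range k ∪ Finset.Ico (2 * n0 - m) n0 := by
        intro r hr
        rw [hRb, Finset.mem_filter, Finset.mem_range] at hr
        rw [Finset.mem_union, Finset.mem_range, Finset.mem_Ico]
        omega
      calc Rb.card ≤ (range k ∪ Finset.Ico (2 * n0 - m) n0).card := Finset.card_le_card hsub
        _ ≤ (range k).card + (Finset.Ico (2 * n0 - m) n0).card := Finset.card_union_le _ _
        _ ≤ m - n0 + k := by rw [Finset.card_range, Nat.card_Ico]; omega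
    have hle : ∀ r ∈ range n0, min (2 ^ (vis k n0 r m).card) (2 ^ (k + 1))
        ≤ 2 ^ k + if (r < k ∨ 2 * n0 < r + m + 1) then 2 ^ k else 0 := by
      intro r hr
      rw [Finset.mem_range] at hr
      split_ifs with hc
      · calc _ ≤ 2 ^ (k + 1) := min_le_right _ _
          _ = 2 ^ k + 2 ^ k := by rw [pow_succ]; ring
      · push Not at hc
        obtain ⟨hc1, hc2⟩ := hc
        rw [add_zero]
        refine (min_le_left _ _).trans (Nat.pow_le_pow_right (by norm_num) ?_)
        have hsub : vis k n0 r m ⊆ vis k n0 r n0 := by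
          intro k' hk'
          simp only [vis, Finset.mem_filter, Finset.mem_range] at hk' ⊢
          refine ⟨?_, hk'.2⟩
          by_contra hge
          push Not at hge
          have h3 : (r + k') % n0 = r + (k' - n0) := by
            have h4 : r + k' = (r + (k' - n0)) + n0 := by omega
            rw [h4, Nat.add_mod_right, Nat.mod_eq_of_lt (by omega)]
          omega
        exact (Finset.card_le_card hsub).trans (vis_card_le le_rfl)
    calc _ ≤ ∑ r ∈ range n0, (2 ^ k + if (r < k ∨ 2 * n0 < r + m + 1) then 2 ^ k else 0) :=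
          Finset.sum_le_sum hle
      _ = n0 * 2 ^ k + Rb.card * 2 ^ k := by
          rw [Finset.sum_add_distrib, Finset.sum_const, Finset.card_range, ← Finset.sum_filter,
            Finset.sum_const, smul_eq_mul, smul_eq_mul]
      _ = (n0 + Rb.card) * 2 ^ k := by ring
      _ ≤ (m + k) * 2 ^ k := Nat.mul_le_mul_right _ (by omega)

end

section

variable (J k n0 L : ℕ) (hJ : 0 < J) (hn0 : 0 < n0) (c : ℕ → Bool)

/-- The complexity of the word is small. -/
theorem word_upper (hk : 5 ≤ k) (hn : n0 = 2 ^ (k - 1)) (hL : L = n0 * 2 ^ (k + 1)) (m : ℕ) :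
    complexity (uu J k n0 L hJ hn0 c) m ≤ J * (2 ^ k + 3 * k + 1) * m + 1 := by
  have hk' : 2 ^ k = 2 * n0 := by
    rw [hn, ← pow_succ']
    congr 1
    omega
  have h2k : 2 * k + 2 ≤ 2 ^ (k - 1) := by
    obtain ⟨d, rfl⟩ : ∃ d, k = d + 5 := ⟨k - 5, by omega⟩
    have : d + 5 - 1 = d + 4 := by omega
    rw [this]
    clear this hk' hL hn hk
    induction d with
    | zero => norm_num
    | succ d ih =>
      have : 2 ^ (d + 1 + 4) = 2 * 2 ^ (d + 4) := by rw [← pow_succ']
      rw [this]
      omega
  have h3k : 3 * k ≤ 2 ^ (k - 1) + 3 := by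
    obtain ⟨d, rfl⟩ : ∃ d, k = d + 5 := ⟨k - 5, by omega⟩
    have : d + 5 - 1 = d + 4 := by omega
    rw [this]
    clear this hk' hL hn hk h2k
    induction d with
    | zero => norm_num
    | succ d ih =>
      have : 2 ^ (d + 1 + 4) = 2 * 2 ^ (d + 4) := by rw [← pow_succ']
      rw [this]
      omega
  rw [← hn] at h2k h3k
  have hn1 : 1 ≤ n0 := hn0
  have hpow : 2 ^ (k + 1) = 4 * n0 := by rw [pow_succ, hk']; ring
  have hLpos : 0 < L := by rw [hL, hpow]; positivity
  have h2L : 2 * n0 ≤ L := by
    rw [hL, hpow]; nlinarith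
  rcases Nat.eq_zero_or_pos m with hm | hm
  · subst hm
    have : complexity (uu J k n0 L hJ hn0 c) 0 ≤ 1 := by
      rw [complexity_eq J k n0 L hJ hn0 c 0 hLpos]
      calc _ ≤ (Finset.univ : Finset (Fin 0 → Fin J × Fin n0 × Bool)).card := Finset.card_le_univ _
        _ = 1 := by simp
    omega
  rcases Nat.lt_or_ge m (2 * n0) with h | h
  · have h1 := complexity_le J k n0 L hJ hn0 c (m := m) hL hm (by omega)
    have h4 : ∑ r ∈ range n0, min (2 ^ (vis k n0 r m).card) (2 ^ (k + 1)) ≤ m * (2 ^ k + 3 * k) := by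
      rcases Nat.lt_or_ge (n0 + 1) (m + k) with h5 | h5
      · refine (beta_large (k := k) (n0 := n0) (m := m) (by omega) h).trans ?_
        have h6 : 2 ^ k ≤ 3 * m := by rw [hk']; omega
        have h7 : k * 2 ^ k ≤ k * (3 * m) := Nat.mul_le_mul_left _ h6
        calc (m + k) * 2 ^ k = m * 2 ^ k + k * 2 ^ k := by ring
          _ ≤ m * 2 ^ k + k * (3 * m) := by omega
          _ = m * (2 ^ k + 3 * k) := by ring
      · calc _ ≤ ∑ r ∈ range n0, 2 ^ (vis k n0 r m).card := Finset.sum_le_sum fun r _ => min_le_left _ _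
          _ ≤ m * 2 ^ k := beta_small hm h5 (by omega)
          _ ≤ m * (2 ^ k + 3 * k) := Nat.mul_le_mul_left _ (by omega)
    have h5 : J * ∑ r ∈ range n0, min (2 ^ (vis k n0 r m).card) (2 ^ (k + 1)) ≤ J * (m * (2 ^ k + 3 * k)) :=
      Nat.mul_le_mul_left _ h4
    have h6 : J * (m - 1) ≤ J * m := Nat.mul_le_mul_left _ (by omega)
    calc _ ≤ J * m + J * (m * (2 ^ k + 3 * k)) := by omega
      _ = J * (2 ^ k + 3 * k + 1) * m := by ring
      _ ≤ _ := by omega
  · have h1 : complexity (uu J k n0 L hJ hn0 c) m ≤ J * L := by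
      rw [complexity_eq J k n0 L hJ hn0 c m hLpos]
      refine Finset.card_image_le.trans ?_
      rw [Finset.card_range]
    have h2 : J * L ≤ J * (2 ^ k + 3 * k + 1) * m := by
      rw [mul_assoc]
      apply Nat.mul_le_mul_left
      rw [hL, hpow, hk']
      nlinarith
    omega

/-- The burst. -/
theorem word_lower (hkn : k ≤ n0) (hL : L = n0 * 2 ^ (k + 1))
    (hc : ∀ i j : ℕ, i < 2 ^ (k + 1) - 1 → j < 2 ^ (k + 1) - 1 →
      (∀ t ≤ k, c (i + t) = c (j + t)) → i = j) :
    complexity (uu J k n0 L hJ hn0 c) n0 + J * k * (2 ^ k - 1)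
      ≤ complexity (uu J k n0 L hJ hn0 c) (n0 + 1) := by
  classical
  set Q := 2 ^ (k + 1) - 1 with hQ
  have hQ1 : Q + 1 = 2 ^ (k + 1) := by
    have : 1 ≤ 2 ^ (k + 1) := Nat.one_le_two_pow
    omega
  have hLpos : 0 < L := by rw [hL]; positivity
  have hpos : ∀ m ≤ n0 + 1, ∀ r < k, ∀ q < Q, q * n0 + r + m ≤ L := by
    intro m hm r hr q hq
    rw [hL, ← hQ1]
    have : (q + 2) * n0 ≤ (Q + 1) * n0 := Nat.mul_le_mul_right _ (by omega)
    calc q * n0 + r + m ≤ (q + 2) * n0 := by rw [Nat.add_mul]; omega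
      _ ≤ (Q + 1) * n0 := this
      _ = n0 * (Q + 1) := mul_comm _ _
  rw [complexity_eq J k n0 L hJ hn0 c _ hLpos, complexity_eq J k n0 L hJ hn0 c _ hLpos]
  set F0 := (range (J * L)).image (wd J k n0 L hJ hn0 c n0) with hF0
  set F1 := (range (J * L)).image (wd J k n0 L hJ hn0 c (n0 + 1)) with hF1
  set Z := (range J ×ˢ range k).biUnion fun p =>
    (range Q).image fun q => wd J k n0 L hJ hn0 c n0 (p.1 * L + (q * n0 + p.2)) with hZ
  set A1 := ((range J ×ˢ range k) ×ˢ range Q).image fun p =>
    wd J k n0 L hJ hn0 c (n0 + 1) (p.1.1 * L + (p.2 * n0 + p.1.2)) with hA1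
  set ρ : (Fin (n0 + 1) → Fin J × Fin n0 × Bool) → (Fin n0 → Fin J × Fin n0 × Bool) :=
    fun w k' => w k'.castSucc with hρ
  have hρwd : ∀ i, ρ (wd J k n0 L hJ hn0 c (n0 + 1) i) = wd J k n0 L hJ hn0 c n0 i := fun i => rfl
  have hidx : ∀ y < J, ∀ r < k, ∀ q < Q, y * L + (q * n0 + r) ∈ range (J * L) := by
    intro y hy r hr q hq
    have h1 := hpos 1 (by omega) r hr q hq
    rw [Finset.mem_range]
    calc y * L + (q * n0 + r) < y * L + L := by omega
      _ = (y + 1) * L := by ring
      _ ≤ J * L := Nat.mul_le_mul_right _ hy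
  have hZc : Z.card ≤ J * k * 2 ^ k := by
    rw [hZ]
    refine Finset.card_biUnion_le.trans ?_
    calc _ ≤ ∑ p ∈ range J ×ˢ range k, 2 ^ k := by
          apply Finset.sum_le_sum
          rintro ⟨y, r⟩ hp
          rw [Finset.mem_product, Finset.mem_range, Finset.mem_range] at hp
          refine (card_phase_le J k n0 L hJ hn0 c hp.1 (range Q) ?_).trans
            (Nat.pow_le_pow_right (by norm_num) (vis_card_le le_rfl))
          intro q hq
          rw [Finset.mem_range] at hq
          exact hpos n0 (by omega) r hp.2 q hq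
      _ = J * k * 2 ^ k := by
          rw [Finset.sum_const, Finset.card_product, Finset.card_range, Finset.card_range, smul_eq_mul]
  have hA1c : A1.card = J * k * Q := by
    rw [hA1, Finset.card_image_of_injOn]
    · rw [Finset.card_product, Finset.card_product, Finset.card_range, Finset.card_range,
        Finset.card_range]
    · rintro ⟨⟨y, r⟩, q⟩ hp ⟨⟨y', r'⟩, q'⟩ hp' he
      simp only [Finset.coe_product, Set.mem_prod, Finset.coe_range, Set.mem_Iio] at hp hp'
      obtain ⟨⟨hy, hr⟩, hq⟩ := hp
      obtain ⟨⟨hy', hr'⟩, hq'⟩ := hp'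
      simp only at he
      have hap : ∀ k' (hk' : k' < n0 + 1), _ := fun k' hk' =>
        (wd_apply J k n0 L hJ hn0 c hy (hpos (n0 + 1) le_rfl r hr q hq) ⟨k', hk'⟩).symm.trans
          ((congrFun he ⟨k', hk'⟩).trans
            (wd_apply J k n0 L hJ hn0 c hy' (hpos (n0 + 1) le_rfl r' hr' q' hq') ⟨k', hk'⟩))
      have h0 := hap 0 (by omega)
      simp only [Prod.mk.injEq, Fin.mk.injEq, add_zero] at h0
      rw [Nat.mod_eq_of_lt (by omega), Nat.mod_eq_of_lt (by omega)] at h0
      obtain ⟨hyy, hrr, -⟩ := h0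
      subst hyy
      subst hrr
      have hqq : q = q' := by
        apply hc q q' hq hq'
        intro t ht
        rcases Nat.lt_or_ge t (k - r) with h | h
        · have h1 := hap (k - 1 - t - r) (by omega)
          simp only [Prod.mk.injEq] at h1
          have h2 := h1.2.2
          have e : r + (k - 1 - t - r) = k - 1 - t := by omega
          rw [e, Nat.mod_eq_of_lt (by omega), Nat.div_eq_of_lt (by omega), if_pos (by omega),
            if_pos (by omega)] at h2
          have e2 : k - 1 - (k - 1 - t) = t := by omega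
          rw [e2] at h2
          simpa using h2
        · have h1 := hap (n0 + (k - t) - r) (by omega)
          simp only [Prod.mk.injEq] at h1
          have h2 := h1.2.2
          have e : r + (n0 + (k - t) - r) = (k - t) + n0 := by omega
          have e3 : (k - t + n0) % n0 = k - t := by
            rw [Nat.add_mod_right, Nat.mod_eq_of_lt (by omega)]
          have e4 : (k - t + n0) / n0 = 1 := by
            rw [Nat.add_div_right _ hn0, Nat.div_eq_of_lt (by omega)]
          rw [e, e3, e4, if_pos (by omega), if_pos (by omega)] at h2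
          have e5 : q + 1 + (k - 1 - (k - t)) = q + t := by omega
          have e6 : q' + 1 + (k - 1 - (k - t)) = q' + t := by omega
          rwa [e5, e6] at h2
      rw [hqq]
  have hA1sub : A1 ⊆ F1.filter fun w => ρ w ∈ Z := by
    intro w hw
    rw [hA1, Finset.mem_image] at hw
    obtain ⟨⟨⟨y, r⟩, q⟩, hp, rfl⟩ := hw
    rw [Finset.mem_product, Finset.mem_product, Finset.mem_range, Finset.mem_range,
      Finset.mem_range] at hp
    obtain ⟨⟨hy, hr⟩, hq⟩ := hp
    rw [Finset.mem_filter]
    refine ⟨Finset.mem_image_of_mem _ (hidx y hy r hr q hq), ?_⟩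
    rw [hρwd, hZ, Finset.mem_biUnion]
    refine ⟨(y, r), ?_, ?_⟩
    · rw [Finset.mem_product, Finset.mem_range, Finset.mem_range]
      exact ⟨hy, hr⟩
    · rw [Finset.mem_image]
      exact ⟨q, Finset.mem_range.2 hq, rfl⟩
  have hA2 : (F0.filter fun z => z ∉ Z).card ≤ (F1.filter fun w => ¬ ρ w ∈ Z).card := by
    have : (F0.filter fun z => z ∉ Z) ⊆ (F1.filter fun w => ¬ ρ w ∈ Z).image ρ := by
      intro z hz
      rw [Finset.mem_filter, hF0, Finset.mem_image] at hz
      obtain ⟨⟨i, hi, rfl⟩, hz2⟩ := hz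
      rw [Finset.mem_image]
      refine ⟨wd J k n0 L hJ hn0 c (n0 + 1) i, ?_, hρwd i⟩
      rw [Finset.mem_filter, hρwd]
      exact ⟨Finset.mem_image_of_mem _ hi, hz2⟩
    exact (Finset.card_le_card this).trans Finset.card_image_le
  have hF1c : (F1.filter fun w => ρ w ∈ Z).card + (F1.filter fun w => ¬ ρ w ∈ Z).card = F1.card :=
    Finset.card_filter_add_card_filter_not _
  have hF0c : F0.card ≤ Z.card + (F0.filter fun z => z ∉ Z).card := by
    have h1 : (F0.filter fun z => z ∈ Z).card + (F0.filter fun z => ¬ z ∈ Z).card = F0.card :=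
      Finset.card_filter_add_card_filter_not _
    have h2 : (F0.filter fun z => z ∈ Z).card ≤ Z.card :=
      Finset.card_le_card fun z hz => (Finset.mem_filter.1 hz).2
    omega
  have hA1' := Finset.card_le_card hA1sub
  rw [hA1c] at hA1'
  have hQ2 : Q = 2 ^ k + (2 ^ k - 1) := by
    have : 2 ^ (k + 1) = 2 ^ k + 2 ^ k := by rw [pow_succ]; ring
    have : 1 ≤ 2 ^ k := Nat.one_le_two_pow
    omega
  have hmul : J * k * Q = J * k * 2 ^ k + J * k * (2 ^ k - 1) := by
    rw [hQ2]; ring
  omega

end

end Pool.Agent.Helper13.FacComp
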