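import Mathlib

namespace Pool.Agent.Helper13.FacComp

/-- The set of factors of length `n` of the infinite word `u` (a factor `w` is the block
`u i, u (i+1), ..., u (i+n-1)` for some position `i`). -/
def factors {A : Type} (u : ℕ → A) (n : ℕ) : Set (Fin n → A) :=
  Set.range fun (i : ℕ) (j : Fin n) => u (i + j)

/-- The factor complexity `p_u(n)`: the number of distinct factors of length `n`. -/
noncomputable def complexity {A : Type} (u : ℕ → A) (n : ℕ) : ℕ := (factors u n).ncard

/-- All values `s_u(n) = p_u(n+1) - p_u(n)`, for `n ≥ 0` and `u` an infinite word over a finite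
alphabet with `p_u(m) ≤ a m + 1` for all `m ≥ 0`. -/
def differences (a : ℝ) : Set ℝ :=
  {x : ℝ | ∃ (A : Type) (_ : Finite A) (u : ℕ → A) (n : ℕ),
    (∀ m : ℕ, (complexity u m : ℝ) ≤ a * m + 1) ∧
      x = (complexity u (n + 1) : ℝ) - (complexity u n : ℝ)}

/-- The number `B(a)`. -/
noncomputable def B (a : ℝ) : ℝ := sSup (differences a)

end Pool.Agent.Helper13.FacComp
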