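import Mathlib

namespace Pool.Agent.Helper13.FacComp

open Finset Real

/-- The potential `x log₂ x / 2`. -/
noncomputable def phi (x : ℝ) : ℝ := x * logb 2 x / 2

lemma phi_zero : phi 0 = 0 := by simp [phi]

lemma phi_one : phi 1 = 0 := by simp [phi]

lemma phi_eq (x : ℝ) : phi x = (x * log x) / (2 * log 2) := by
  unfold phi logb
  field_simp

lemma phi_convex : ConvexOn ℝ (Set.Ici 0) phi := by
  have h : phi = fun x => (1 / (2 * log 2)) • (x * log x) := by
    funext x
    rw [phi_eq, smul_eq_mul]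
    ring
  rw [h]
  apply ConvexOn.smul
  · positivity
  · exact Real.convexOn_mul_log

lemma phi_two {a b : ℝ} (hb : 0 ≤ b) (hab : b ≤ a) : b + phi a + phi b ≤ phi (a + b) := by
  rcases hb.eq_or_lt with rfl | hb'
  · simp [phi_zero]
  have ha : 0 < a := lt_of_lt_of_le hb' hab
  have hab0 : a + b ∈ Set.Ici (0 : ℝ) := Set.mem_Ici.2 (by linarith)
  have hb0 : b ∈ Set.Ici (0 : ℝ) := Set.mem_Ici.2 hb
  have hl : 0 ≤ b / a := by positivity
  have hl' : 0 ≤ 1 - b / a := by rw [sub_nonneg, div_le_one ha]; exact hab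
  have h1 := phi_convex.2 hab0 hb0 hl hl' (by ring)
  have h2 := phi_convex.2 hab0 hb0 hl' hl (by ring)
  have e1 : (b / a) • (a + b) + (1 - b / a) • b = 2 * b := by
    simp only [smul_eq_mul]; field_simp; ring
  have e2 : (1 - b / a) • (a + b) + (b / a) • b = a := by
    simp only [smul_eq_mul]; field_simp; ring
  rw [e1] at h1
  rw [e2] at h2
  simp only [smul_eq_mul] at h1 h2
  have h3 : phi (2 * b) + phi a ≤ phi (a + b) + phi b := by
    have : b / a * phi (a + b) + (1 - b / a) * phi b + ((1 - b / a) * phi (a + b) + b / a * phi b)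
        = phi (a + b) + phi b := by ring
    linarith
  have h4 : phi (2 * b) = b + 2 * phi b := by
    unfold phi
    rw [Real.logb_mul (by norm_num) (by positivity)]
    rw [Real.logb_self_eq_one (by norm_num)]
    ring
  linarith

lemma phi_nonneg_nat (m : ℕ) : 0 ≤ phi m := by
  rcases Nat.eq_zero_or_pos m with h | h
  · subst h; simp [phi_zero]
  · unfold phi
    have : 0 ≤ logb 2 (m : ℝ) := Real.logb_nonneg (by norm_num) (by exact_mod_cast h)
    positivity

/-- Several parts, the largest one distinguished. -/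
lemma phi_multi {γ : Type*} [DecidableEq γ] (m : γ → ℕ) (c : γ) (C : Finset γ) (hc : c ∉ C)
    (hm : ∀ d ∈ C, m d ≤ m c) :
    (∑ d ∈ C, (m d : ℝ)) + phi (m c) + ∑ d ∈ C, phi (m d) ≤ phi (m c + ∑ d ∈ C, (m d : ℝ)) := by
  induction C using Finset.induction_on with
  | empty => simp
  | insert d C hd ih =>
    have ih' := ih (fun h => hc (Finset.mem_insert_of_mem h))
      (fun e he => hm e (Finset.mem_insert_of_mem he))
    rw [Finset.sum_insert hd, Finset.sum_insert hd]
    have h1 : (m d : ℝ) ≤ m c + ∑ d ∈ C, (m d : ℝ) := by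
      have h2 : (m d : ℝ) ≤ m c := by exact_mod_cast hm d (Finset.mem_insert_self _ _)
      have h3 : 0 ≤ ∑ d ∈ C, (m d : ℝ) := Finset.sum_nonneg fun _ _ => Nat.cast_nonneg _
      linarith
    have h4 := phi_two (Nat.cast_nonneg (m d)) h1
    have e : (m c : ℝ) + ((m d : ℝ) + ∑ d ∈ C, (m d : ℝ))
        = m c + ∑ d ∈ C, (m d : ℝ) + m d := by ring
    rw [e]
    linarith

end Pool.Agent.Helper13.FacComp
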