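import Pool.Agent.Helper13.FacComp.Upper
import Pool.Agent.Helper13.FacComp.Count

namespace Pool.Agent.Helper13.FacComp

open Finset Real

lemma B_eq (a : ℝ) : B a = sSup (differences a) := rfl

lemma complexity_const (m : ℕ) : complexity (fun _ : ℕ => ()) m = 1 := by
  unfold complexity factors
  rw [Set.range_const, Set.ncard_singleton]

lemma zero_mem (a : ℝ) (ha : 0 ≤ a) : (0 : ℝ) ∈ differences a := by
  refine ⟨Unit, inferInstance, fun _ => (), 0, ?_, ?_⟩
  · intro m
    rw [complexity_const]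
    push_cast
    have : 0 ≤ a * m := by positivity
    linarith
  · rw [complexity_const, complexity_const]
    norm_num

lemma bdd (a : ℝ) (ha : 1 ≤ a) : BddAbove (differences a) := by
  refine ⟨4 * (a + 1) * log (8 * (1 : ℕ)) + (1 + 1 / (1 : ℕ)) * (a + 3 / 2) * logb 2 (16 * (1 : ℕ) * (a + 1)), ?_⟩
  rintro x ⟨A, hA, u, n, hu, rfl⟩
  exact upper u a ha hu n 1 le_rfl

lemma B_nonneg (a : ℝ) (ha : 1 ≤ a) : 0 ≤ B a := by
  rw [B_eq]
  exact le_csSup (bdd a ha) (zero_mem a (by linarith))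

lemma B_le (a : ℝ) (ha : 1 ≤ a) (r : ℕ) (hr : 1 ≤ r) :
    B a ≤ 4 * (a + 1) * log (8 * r) + (1 + 1 / r) * (a + 3 / 2) * logb 2 (16 * r * (a + 1)) := by
  rw [B_eq]
  apply csSup_le ⟨0, zero_mem a (by linarith)⟩
  rintro x ⟨A, hA, u, n, hu, rfl⟩
  exact upper u a ha hu n r hr

/-- The burst of the constructed words. -/
lemma le_B (a : ℝ) (ha : 1 ≤ a) (J k : ℕ) (hJ : 0 < J) (hk : 5 ≤ k)
    (h : (J : ℝ) * (2 ^ k + 3 * k + 1) ≤ a) : (J : ℝ) * k * (2 ^ k - 1) ≤ B a := by
  obtain ⟨c, hc⟩ := exists_seq k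
  have hn0 : 0 < 2 ^ (k - 1) := by positivity
  have h1 := word_upper J k (2 ^ (k - 1)) (2 ^ (k - 1) * 2 ^ (k + 1)) hJ hn0 c hk rfl rfl
  have hkn : k ≤ 2 ^ (k - 1) := by
    have := Nat.lt_two_pow_self (n := k - 1)
    omega
  have h2 := word_lower J k (2 ^ (k - 1)) (2 ^ (k - 1) * 2 ^ (k + 1)) hJ hn0 c hkn rfl hc
  set u := uu J k (2 ^ (k - 1)) (2 ^ (k - 1) * 2 ^ (k + 1)) hJ hn0 c
  have hmem : ((complexity u (2 ^ (k - 1) + 1) : ℝ) - (complexity u (2 ^ (k - 1)) : ℝ)) ∈ differences a := by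
    refine ⟨Fin J × Fin (2 ^ (k - 1)) × Bool, inferInstance, u, 2 ^ (k - 1), ?_, rfl⟩
    intro m
    have h3 : (complexity u m : ℝ) ≤ (J : ℝ) * (2 ^ k + 3 * k + 1) * m + 1 := by
      exact_mod_cast h1 m
    have h4 : (J : ℝ) * (2 ^ k + 3 * k + 1) * m ≤ a * m :=
      mul_le_mul_of_nonneg_right h (Nat.cast_nonneg m)
    linarith
  rw [B_eq]
  refine le_trans ?_ (le_csSup (bdd a ha) hmem)
  have h5 : (J : ℝ) * k * ((2 ^ k - 1 : ℕ) : ℝ) + complexity u (2 ^ (k - 1))
      ≤ complexity u (2 ^ (k - 1) + 1) := by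
    have : J * k * (2 ^ k - 1) + complexity u (2 ^ (k - 1)) ≤ complexity u (2 ^ (k - 1) + 1) := by
      omega
    exact_mod_cast this
  have h6 : ((2 ^ k - 1 : ℕ) : ℝ) = 2 ^ k - 1 := by
    rw [Nat.cast_sub Nat.one_le_two_pow]
    push_cast
    ring
  rw [h6] at h5
  linarith

lemma three_sq_le (k : ℕ) (hk : 8 ≤ k) : 3 * k * k ≤ 2 ^ k := by
  induction k, hk using Nat.le_induction with
  | base => norm_num
  | succ k hk ih =>
    rw [pow_succ]
    nlinarith

lemma pow_ge (X : ℕ) (hX : 12 ≤ X) : X ≤ 2 ^ (X - 8) := by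
  induction X, hX using Nat.le_induction with
  | base => norm_num
  | succ X hX ih =>
    have : X + 1 - 8 = (X - 8) + 1 := by omega
    rw [this, pow_succ]
    omega

/-- Lower bound. -/
theorem lower_main (a : ℝ) (ha : 16 ≤ a) :
    a * logb 2 a - 4 * a * logb 2 (logb 2 a) ≤ B a := by
  set x := logb 2 a with hx
  have hx4 : 4 ≤ x := by
    rw [hx, Real.le_logb_iff_rpow_le (by norm_num) (by linarith)]
    norm_num
    linarith
  rcases le_or_gt x 12 with h12 | h12
  · have h1 : x ≤ 4 * logb 2 x := by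
      rcases le_or_gt x 8 with h8 | h8
      · have : 2 ≤ logb 2 x := by
          rw [Real.le_logb_iff_rpow_le (by norm_num) (by linarith)]
          norm_num
          linarith
        linarith
      · have : 3 ≤ logb 2 x := by
          rw [Real.le_logb_iff_rpow_le (by norm_num) (by linarith)]
          norm_num
          linarith
        linarith
    have h2 : a * x ≤ a * (4 * logb 2 x) := mul_le_mul_of_nonneg_left h1 (by linarith)
    have h3 := B_nonneg a (by linarith)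
    linarith
  · set X := ⌊x⌋₊ with hX
    have hXx : (X : ℝ) ≤ x := Nat.floor_le (by linarith)
    have hxX : x < X + 1 := Nat.lt_floor_add_one x
    have hX12 : 12 ≤ X := Nat.le_floor (by exact_mod_cast h12.le)
    have h2X : (2 : ℝ) ^ X ≤ a := by
      have : (2 : ℝ) ^ (X : ℝ) ≤ a := by
        rw [← Real.le_logb_iff_rpow_le (by norm_num) (by linarith)]
        exact hXx
      rwa [Real.rpow_natCast] at this
    set g := Nat.clog 2 X with hg
    have hg1 : X ≤ 2 ^ g := Nat.le_pow_clog (by norm_num) X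
    have hg2 : g ≤ X - 8 := by
      rw [hg]
      exact Nat.clog_le_of_le_pow (pow_ge X hX12)
    have hg3 : (g : ℝ) ≤ logb 2 x + 1 := by
      have h3 : 2 ^ (g - 1) < X := by
        apply Nat.pow_pred_clog_lt_self (by norm_num) (by omega)
      have hg0 : 1 ≤ g := by
        rw [hg]
        exact Nat.clog_pos (by norm_num) (by omega)
      have h4 : ((g - 1 : ℕ) : ℝ) ≤ logb 2 x := by
        rw [Real.le_logb_iff_rpow_le (by norm_num) (by linarith), Real.rpow_natCast]
        have : ((2 ^ (g - 1) : ℕ) : ℝ) ≤ X := by exact_mod_cast h3.le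
        push_cast at this
        linarith
      rw [Nat.cast_sub hg0] at h4
      push_cast at h4
      linarith
    obtain ⟨k, hk⟩ : ∃ k, X = k + g := ⟨X - g, by omega⟩
    have hk8 : 8 ≤ k := by omega
    have hkx : x - logb 2 x - 2 ≤ k := by
      have : (X : ℝ) = k + g := by exact_mod_cast hk
      linarith
    -- k 2^k ≤ a
    have hk2 : (k : ℝ) * 2 ^ k ≤ a := by
      have h3 : k * 2 ^ k ≤ 2 ^ X := by
        rw [hk, pow_add, mul_comm]
        exact Nat.mul_le_mul_left _ (by omega)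
      have h4 : (k : ℝ) * 2 ^ k ≤ 2 ^ X := by exact_mod_cast h3
      linarith
    have hsq := three_sq_le k hk8
    have hsq' : (3 : ℝ) * k * k ≤ 2 ^ k := by exact_mod_cast hsq
    have hk8' : (8 : ℝ) ≤ k := by exact_mod_cast hk8
    set D : ℝ := 2 ^ k + 3 * k + 1 with hD
    have hDpos : 0 < D := by positivity
    set J := ⌊a / D⌋₊ with hJ
    have hJ1 : (J : ℝ) * D ≤ a := by
      have := Nat.floor_le (show 0 ≤ a / D by positivity)
      rwa [← hJ, le_div_iff₀ hDpos] at this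
    have hJ2 : a / D < J + 1 := Nat.lt_floor_add_one _
    have hDa : D ≤ a := by
      have : (2 : ℝ) * 2 ^ k ≤ k * 2 ^ k := mul_le_mul_of_nonneg_right (by linarith) (by positivity)
      have h3 : (3 : ℝ) * k + 1 ≤ 2 ^ k := by nlinarith
      rw [hD]
      linarith
    have hJpos : 0 < J := by
      rw [hJ, Nat.floor_pos, le_div_iff₀ hDpos]
      linarith
    have hB := le_B a (by linarith) J k hJpos (by omega) hJ1
    have h2k1 : (0 : ℝ) ≤ 2 ^ k - 1 := by nlinarith
    -- J k (2^k - 1) ≥ (k - 2) a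
    have h5 : a * (k - 1) ≤ a / D * (k * (2 ^ k - 1)) := by
      rw [div_mul_eq_mul_div, le_div_iff₀ hDpos, mul_assoc]
      apply mul_le_mul_of_nonneg_left _ (by linarith)
      rw [hD]
      nlinarith
    have h6 : a / D * (k * (2 ^ k - 1)) ≤ (J + 1) * (k * (2 ^ k - 1)) :=
      mul_le_mul_of_nonneg_right hJ2.le (by positivity)
    have h7 : (k : ℝ) * (2 ^ k - 1) ≤ a := by nlinarith
    have h8 : (k - 2 : ℝ) * a ≤ B a := by
      have : (J + 1 : ℝ) * (k * (2 ^ k - 1)) = J * k * (2 ^ k - 1) + k * (2 ^ k - 1) := by ring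
      rw [this] at h6
      linarith
    have h9 : 3 ≤ logb 2 x := by
      rw [Real.le_logb_iff_rpow_le (by norm_num) (by linarith)]
      norm_num
      linarith
    have h10 : (x - 4 * logb 2 x) * a ≤ (k - 2) * a :=
      mul_le_mul_of_nonneg_right (by linarith) (by linarith)
    linarith

/-- Upper bound. -/
theorem upper_main (a : ℝ) (ha : 16 ≤ a) :
    B a ≤ a * logb 2 a + 14 * a * logb 2 (logb 2 a) := by
  set x := logb 2 a with hx
  have hx4 : 4 ≤ x := by
    rw [hx, Real.le_logb_iff_rpow_le (by norm_num) (by linarith)]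
    norm_num
    linarith
  set l := logb 2 x with hl
  have hl2 : 2 ≤ l := by
    rw [hl, Real.le_logb_iff_rpow_le (by norm_num) (by linarith)]
    norm_num
    linarith
  have hax : a = 2 ^ x := by
    rw [hx, Real.rpow_logb (by norm_num) (by norm_num) (by linarith)]
  set r := ⌈x⌉₊ with hr
  have hr1 : x ≤ r := Nat.le_ceil x
  have hr2 : (r : ℝ) < x + 1 := Nat.ceil_lt_add_one (by linarith)
  have hr0 : (0 : ℝ) < r := by linarith
  have hrpos : 1 ≤ r := by
    have : (1 : ℝ) ≤ r := by linarith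
    exact_mod_cast this
  have hB := B_le a (by linarith) r hrpos
  -- logb 2 r ≤ l + 1/3
  have h54 : logb 2 (5 / 4 : ℝ) ≤ 1 / 3 := by
    rw [Real.logb_le_iff_le_rpow (by norm_num) (by norm_num)]
    have h1 : ((5 / 4 : ℝ) ^ (3 : ℕ)) ≤ 2 := by norm_num
    have h2 : (5 / 4 : ℝ) = ((5 / 4 : ℝ) ^ (3 : ℕ)) ^ (1 / 3 : ℝ) := by
      rw [← Real.rpow_natCast, ← Real.rpow_mul (by norm_num)]
      norm_num
    rw [h2]
    exact Real.rpow_le_rpow (by positivity) h1 (by norm_num)
  have h1716 : logb 2 (17 / 16 : ℝ) ≤ 1 / 8 := by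
    rw [Real.logb_le_iff_le_rpow (by norm_num) (by norm_num)]
    have h1 : ((17 / 16 : ℝ) ^ (8 : ℕ)) ≤ 2 := by norm_num
    have h2 : (17 / 16 : ℝ) = ((17 / 16 : ℝ) ^ (8 : ℕ)) ^ (1 / 8 : ℝ) := by
      rw [← Real.rpow_natCast, ← Real.rpow_mul (by norm_num)]
      norm_num
    rw [h2]
    exact Real.rpow_le_rpow (by positivity) h1 (by norm_num)
  have hlr : logb 2 (r : ℝ) ≤ l + 1 / 3 := by
    have h1 : logb 2 (r : ℝ) ≤ logb 2 (5 / 4 * x) :=
      Real.logb_le_logb_of_le (by norm_num) hr0 (by linarith)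
    rw [Real.logb_mul (by norm_num) (by linarith)] at h1
    linarith
  have hla : logb 2 (a + 1) ≤ x + 1 / 8 := by
    have h1 : logb 2 (a + 1) ≤ logb 2 (17 / 16 * a) :=
      Real.logb_le_logb_of_le (by norm_num) (by linarith) (by linarith)
    rw [Real.logb_mul (by norm_num) (by linarith)] at h1
    linarith
  have hl8 : logb 2 (8 : ℝ) = 3 := by
    rw [show (8 : ℝ) = 2 ^ (3 : ℝ) by norm_num, Real.logb_rpow (by norm_num) (by norm_num)]
  have hl16 : logb 2 (16 : ℝ) = 4 := by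
    rw [show (16 : ℝ) = 2 ^ (4 : ℝ) by norm_num, Real.logb_rpow (by norm_num) (by norm_num)]
  have hlog2 : log 2 ≤ 0.7 := by
    have := Real.log_two_lt_d9
    linarith
  have hlog2pos : 0 < log 2 := Real.log_pos (by norm_num)
  -- first term
  have t1 : log (8 * r) ≤ 0.7 * (l + 10 / 3) := by
    have h1 : log (8 * r) = logb 2 (8 * r) * log 2 := by
      rw [Real.logb, div_mul_cancel₀ _ hlog2pos.ne']
    rw [h1, Real.logb_mul (by norm_num) hr0.ne', hl8]
    have h2 : 3 + logb 2 (r : ℝ) ≤ l + 10 / 3 := by linarith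
    calc (3 + logb 2 (r : ℝ)) * log 2 ≤ (l + 10 / 3) * log 2 :=
          mul_le_mul_of_nonneg_right h2 hlog2pos.le
      _ ≤ (l + 10 / 3) * 0.7 := mul_le_mul_of_nonneg_left hlog2 (by linarith)
      _ = _ := by ring
  have t1' : 4 * (a + 1) * log (8 * r) ≤ a * (3 * l + 10) := by
    have h1 : 4 * (a + 1) ≤ 4.25 * a := by linarith
    have h2 : (0 : ℝ) ≤ 0.7 * (l + 10 / 3) := by linarith
    calc 4 * (a + 1) * log (8 * r) ≤ 4 * (a + 1) * (0.7 * (l + 10 / 3)) :=
          mul_le_mul_of_nonneg_left t1 (by linarith)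
      _ ≤ 4.25 * a * (0.7 * (l + 10 / 3)) := mul_le_mul_of_nonneg_right h1 h2
      _ = a * (2.975 * l + 2.975 * (10 / 3)) := by ring
      _ ≤ a * (3 * l + 10) := mul_le_mul_of_nonneg_left (by linarith) (by linarith)
  -- second term
  have t2 : logb 2 (16 * r * (a + 1)) ≤ x + l + 4.5 := by
    rw [Real.logb_mul (by positivity) (by linarith), Real.logb_mul (by norm_num) hr0.ne', hl16]
    linarith
  have t3 : (1 + 1 / (r : ℝ)) * (x + l + 4.5) ≤ x + 1.25 * l + 6.625 := by
    have h1 : 1 / (r : ℝ) ≤ 1 / x := one_div_le_one_div_of_le (by linarith) hr1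
    have h2 : 1 / x * (x + l + 4.5) = 1 + (l + 4.5) / x := by
      field_simp
      ring
    have h3 : (l + 4.5) / x ≤ (l + 4.5) / 4 :=
      div_le_div_of_nonneg_left (by linarith) (by norm_num) hx4
    calc (1 + 1 / (r : ℝ)) * (x + l + 4.5) ≤ (1 + 1 / x) * (x + l + 4.5) :=
          mul_le_mul_of_nonneg_right (by linarith) (by linarith)
      _ = (x + l + 4.5) + 1 / x * (x + l + 4.5) := by ring
      _ ≤ _ := by rw [h2]; linarith
  have hx_a : x ≤ a / 4 := by
    rw [hax]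
    have h1 : (2 : ℝ) ^ x = 16 * 2 ^ (x - 4) := by
      rw [Real.rpow_sub (by norm_num)]
      norm_num
      ring
    have h2 : 1 + (x - 4) * log 2 ≤ 2 ^ (x - 4) := by
      rw [Real.rpow_def_of_pos (by norm_num), mul_comm (log 2)]
      have := Real.add_one_le_exp ((x - 4) * log 2)
      linarith
    have h3 : 0.69 ≤ log 2 := by
      have := Real.log_two_gt_d9
      linarith
    have h4 : (x - 4) * 0.69 ≤ (x - 4) * log 2 := mul_le_mul_of_nonneg_left h3 (by linarith)
    rw [h1]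
    linarith
  have hl_x : l ≤ x / 2 := by
    rw [hl, Real.logb_le_iff_le_rpow (by norm_num) (by linarith)]
    have h1 : (2 : ℝ) ^ (x / 2) = 4 * 2 ^ (x / 2 - 2) := by
      rw [Real.rpow_sub (by norm_num)]
      norm_num
      ring
    have h2 : 1 + (x / 2 - 2) * log 2 ≤ 2 ^ (x / 2 - 2) := by
      rw [Real.rpow_def_of_pos (by norm_num), mul_comm (log 2)]
      have := Real.add_one_le_exp ((x / 2 - 2) * log 2)
      linarith
    have h3 : 0.69 ≤ log 2 := by
      have := Real.log_two_gt_d9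
      linarith
    have h4 : (x / 2 - 2) * 0.69 ≤ (x / 2 - 2) * log 2 := mul_le_mul_of_nonneg_left h3 (by linarith)
    rw [h1]
    linarith
  have t4 : (1 + 1 / (r : ℝ)) * (a + 3 / 2) * logb 2 (16 * r * (a + 1))
      ≤ a * (x + 1.25 * l + 7.9) := by
    have h1 : (1 + 1 / (r : ℝ)) * (a + 3 / 2) * logb 2 (16 * r * (a + 1))
        ≤ (1 + 1 / (r : ℝ)) * (a + 3 / 2) * (x + l + 4.5) :=
      mul_le_mul_of_nonneg_left t2 (by positivity)
    have h2 : (1 + 1 / (r : ℝ)) * (a + 3 / 2) * (x + l + 4.5)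
        = (a + 3 / 2) * ((1 + 1 / (r : ℝ)) * (x + l + 4.5)) := by ring
    have h3 : (a + 3 / 2) * ((1 + 1 / (r : ℝ)) * (x + l + 4.5))
        ≤ (a + 3 / 2) * (x + 1.25 * l + 6.625) := mul_le_mul_of_nonneg_left t3 (by linarith)
    have h4 : 3 / 2 * (x + 1.25 * l + 6.625) ≤ a * 1.275 := by linarith
    have h5 : (a + 3 / 2) * (x + 1.25 * l + 6.625)
        = a * (x + 1.25 * l + 6.625) + 3 / 2 * (x + 1.25 * l + 6.625) := by ring
    have h6 : a * (x + 1.25 * l + 7.9) = a * (x + 1.25 * l + 6.625) + a * 1.275 := by ring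
    linarith
  have t5 : a * (3 * l + 10) + a * (x + 1.25 * l + 7.9) ≤ a * x + 14 * a * l := by
    have h1 : 3 * l + 10 + (x + 1.25 * l + 7.9) ≤ x + 14 * l := by linarith
    have h2 := mul_le_mul_of_nonneg_left h1 (by linarith : (0 : ℝ) ≤ a)
    linarith
  linarith

end Pool.Agent.Helper13.FacComp
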