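import Pool.Agent.Helper13.FacComp.Entropy

namespace Pool.Agent.Helper13.FacComp

open Finset Real

/-- Window of length `n` at position `s` of the word `x i`. -/
def win {ι A : Type*} (x : ι → ℕ → A) (n s : ℕ) (i : ι) : Fin n → A := fun k => x i (s + k)

open Classical in
/-- Number of distinct windows of length `n` at position `s` in the family `F`. -/
noncomputable def cnt {ι A : Type*} (x : ι → ℕ → A) (F : Finset ι) (n s : ℕ) : ℕ :=
  (F.image (win x n s)).card

section

variable {ι A : Type*}

lemma card_image_eq_sum {β γ : Type*} [DecidableEq β] [DecidableEq γ] (F : Finset ι) (g : ι → β)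
    (l : ι → γ)
    (h : ∀ i ∈ F, ∀ j ∈ F, g i = g j → l i = l j) :
    (F.image g).card = ∑ c ∈ F.image l, ((F.filter fun i => l i = c).image g).card := by
  have e : F.image g = (F.image l).biUnion fun c => (F.filter fun i => l i = c).image g := by
    ext w
    simp only [Finset.mem_image, Finset.mem_biUnion, Finset.mem_filter]
    constructor
    · rintro ⟨i, hi, rfl⟩
      exact ⟨l i, ⟨i, hi, rfl⟩, i, ⟨hi, rfl⟩, rfl⟩
    · rintro ⟨c, -, i, ⟨hi, -⟩, rfl⟩
      exact ⟨i, hi, rfl⟩
  rw [e, Finset.card_biUnion]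
  intro c _ d _ hcd
  rw [Function.onFun, Finset.disjoint_left]
  intro w hw hw'
  simp only [Finset.mem_image, Finset.mem_filter] at hw hw'
  obtain ⟨i, ⟨hi, rfl⟩, rfl⟩ := hw
  obtain ⟨j, ⟨hj, rfl⟩, h2⟩ := hw'
  exact hcd (h i hi j hj h2.symm)

lemma cnt_mono (x : ι → ℕ → A) {F G : Finset ι} (h : F ⊆ G) (n s : ℕ) :
    cnt x F n s ≤ cnt x G n s := by
  classical
  exact Finset.card_le_card (Finset.image_subset_image h)

lemma cnt_le_card (x : ι → ℕ → A) (F : Finset ι) (n s : ℕ) : cnt x F n s ≤ F.card := by
  classical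
  exact Finset.card_image_le

lemma win_succ_left {x : ι → ℕ → A} {n s : ℕ} {i j : ι} (h : win x (n + 1) s i = win x (n + 1) s j) :
    win x n s i = win x n s j := by
  funext k
  have := congrFun h k.castSucc
  simpa [win] using this

lemma cnt_le_succ (x : ι → ℕ → A) (F : Finset ι) (n s : ℕ) :
    cnt x F n s ≤ cnt x F (n + 1) s := by
  classical
  unfold cnt
  have : F.image (win x n s) = (F.image (win x (n + 1) s)).image fun w k => w k.castSucc := by
    rw [Finset.image_image]
    rfl
  rw [this]
  exact Finset.card_image_le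

lemma cnt_succ_le_of_const (x : ι → ℕ → A) (F : Finset ι) (n s : ℕ) (c : A)
    (h : ∀ i ∈ F, x i (s + n) = c) : cnt x F (n + 1) s ≤ cnt x F n s := by
  classical
  unfold cnt
  have : F.image (win x (n + 1) s) = (F.image (win x n s)).image fun w => Fin.snoc (α := fun _ => A) w c := by
    rw [Finset.image_image]
    apply Finset.image_congr
    intro i hi
    funext k
    refine Fin.lastCases ?_ (fun k => ?_) k
    · simp [win, h i hi]
    · simp [win]
  rw [this]
  exact Finset.card_image_le

/-- The entropy inequality. -/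
theorem lemmaE (x : ι → ℕ → A) (n : ℕ) : ∀ (h s0 : ℕ) (F : Finset ι), h ≤ n + 1 →
    ∑ s ∈ range h, ((cnt x F (n + 1) (s0 + s) : ℝ) - cnt x F n (s0 + s)) ≤ phi F.card := by
  classical
  intro h
  induction h with
  | zero => intro s0 F _; simpa using phi_nonneg_nat F.card
  | succ h ih =>
    intro s0 F hh
    rcases F.eq_empty_or_nonempty with rfl | hF
    · simp [cnt, phi_zero]
    set l : ι → A := fun i => x i (s0 + n) with hl
    set C := F.image l with hC
    set Fc : A → Finset ι := fun c => F.filter fun i => l i = c with hFc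
    obtain ⟨c, hcC, hmax⟩ := Finset.exists_max_image C (fun c => (Fc c).card) (hF.image l)
    -- later positions split
    have hsplit : ∀ s m, 1 ≤ s → s ≤ n → n ≤ m →
        cnt x F m (s0 + s) = ∑ c ∈ C, cnt x (Fc c) m (s0 + s) := by
      intro s m h1 h2 h3
      unfold cnt
      apply card_image_eq_sum
      intro i _ j _ hij
      have := congrFun hij ⟨n - s, by omega⟩
      simp only [win] at this
      have e : s0 + s + (n - s) = s0 + n := by omega
      rw [e] at this
      exact this
    have h0 : cnt x F (n + 1) (s0 + 0) = ∑ c ∈ C, cnt x (Fc c) (n + 1) (s0 + 0) := by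
      unfold cnt
      apply card_image_eq_sum
      intro i _ j _ hij
      have := congrFun hij ⟨n, by omega⟩
      simpa [win] using this
    rw [Finset.sum_range_succ']
    have hA : ∑ s ∈ range h, ((cnt x F (n + 1) (s0 + (s + 1)) : ℝ) - cnt x F n (s0 + (s + 1)))
        ≤ ∑ c ∈ C, phi (Fc c).card := by
      have e : ∑ s ∈ range h, ((cnt x F (n + 1) (s0 + (s + 1)) : ℝ) - cnt x F n (s0 + (s + 1)))
          = ∑ c ∈ C, ∑ s ∈ range h, ((cnt x (Fc c) (n + 1) (s0 + (s + 1)) : ℝ)
            - cnt x (Fc c) n (s0 + (s + 1))) := by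
        rw [Finset.sum_comm]
        apply Finset.sum_congr rfl
        intro s hs
        rw [Finset.mem_range] at hs
        rw [hsplit (s + 1) (n + 1) (by omega) (by omega) (by omega),
          hsplit (s + 1) n (by omega) (by omega) (by omega), Finset.sum_sub_distrib]
        push_cast
        ring
      rw [e]
      apply Finset.sum_le_sum
      intro d _
      have := ih (s0 + 1) (Fc d) (by omega)
      refine le_trans (le_of_eq ?_) this
      apply Finset.sum_congr rfl
      intro s _
      have e2 : s0 + (s + 1) = s0 + 1 + s := by ring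
      rw [e2]
    have hB : (cnt x F (n + 1) (s0 + 0) : ℝ) - cnt x F n (s0 + 0)
        ≤ ∑ d ∈ C.erase c, ((Fc d).card : ℝ) := by
      have h1 : cnt x F (n + 1) (s0 + 0) ≤ ∑ d ∈ C, cnt x (Fc d) n (s0 + 0) := by
        rw [h0]
        apply Finset.sum_le_sum
        intro d _
        apply cnt_succ_le_of_const x (Fc d) n (s0 + 0) d
        intro i hi
        simp only [hFc, Finset.mem_filter, hl] at hi
        simpa using hi.2
      have h2 : cnt x (Fc c) n (s0 + 0) ≤ cnt x F n (s0 + 0) :=
        cnt_mono x (Finset.filter_subset _ _) _ _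
      have h3 : ∑ d ∈ C, cnt x (Fc d) n (s0 + 0)
          = ∑ d ∈ C.erase c, cnt x (Fc d) n (s0 + 0) + cnt x (Fc c) n (s0 + 0) :=
        (Finset.sum_erase_add _ _ hcC).symm
      have h4 : ∑ d ∈ C.erase c, cnt x (Fc d) n (s0 + 0) ≤ ∑ d ∈ C.erase c, (Fc d).card :=
        Finset.sum_le_sum fun d _ => cnt_le_card _ _ _ _
      have h5 : cnt x F (n + 1) (s0 + 0) ≤ ∑ d ∈ C.erase c, (Fc d).card + cnt x F n (s0 + 0) := by
        omega
      have h6 : (cnt x F (n + 1) (s0 + 0) : ℝ)
          ≤ ∑ d ∈ C.erase c, ((Fc d).card : ℝ) + cnt x F n (s0 + 0) := by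
        exact_mod_cast h5
      linarith
    have hM := phi_multi (fun d => (Fc d).card) c (C.erase c) (Finset.notMem_erase c C)
      (fun d hd => hmax d (Finset.mem_of_mem_erase hd))
    have hsum : (F.card : ℝ) = (Fc c).card + ∑ d ∈ C.erase c, ((Fc d).card : ℝ) := by
      have : F.card = ∑ d ∈ C, (Fc d).card := by
        rw [Finset.card_eq_sum_card_image l F]
      rw [this, ← Finset.sum_erase_add _ _ hcC]
      push_cast
      ring
    have hphi : ∑ d ∈ C, phi (Fc d).card = ∑ d ∈ C.erase c, phi (Fc d).card + phi (Fc c).card :=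
      (Finset.sum_erase_add _ _ hcC).symm
    rw [hsum]
    rw [hphi] at hA
    linarith

end

end Pool.Agent.Helper13.FacComp
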