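import Pool.Agent.Helper13.FacComp.Per

namespace Pool.Agent.Helper13.FacComp

open Finset Real

section

variable {A : Type} [Finite A]

/-- The family of words `k ↦ v (i + k)`. -/
def xx (v : ℤ → A) : ℤ → ℕ → A := fun i k => v (i + k)

omit [Finite A] in
lemma win_xx (v : ℤ → A) (m s : ℕ) (i : ℤ) : win (xx v) m s i = W v m (i + s) := by
  funext k
  simp only [win, xx, W]
  push_cast
  congr 1
  ring

/-- Left end of the periodic run ending at `i + n`. -/
noncomputable def aa (v : ℤ → A) (t n : ℕ) (i : ℤ) : ℕ := sInf {a : ℕ | tper v t (i + a) (n - a)}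

omit [Finite A] in
lemma aa_nonempty (v : ℤ → A) {t : ℕ} (ht : 1 ≤ t) (n : ℕ) (i : ℤ) :
    {a : ℕ | tper v t (i + a) (n - a)}.Nonempty := by
  refine ⟨n, 1, le_refl _, ht, fun k hk => ?_⟩
  omega

omit [Finite A] in
lemma aa_spec (v : ℤ → A) {t : ℕ} (ht : 1 ≤ t) (n : ℕ) (i : ℤ) :
    tper v t (i + aa v t n i) (n - aa v t n i) := Nat.sInf_mem (aa_nonempty v ht n i)

omit [Finite A] in
lemma aa_le_iff (v : ℤ → A) {t : ℕ} (ht : 1 ≤ t) (n : ℕ) (i : ℤ) (s : ℕ) :
    aa v t n i ≤ s ↔ tper v t (i + s) (n - s) := by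
  constructor
  · intro h
    have h1 := aa_spec v ht n i
    have h2 := tper_sub (s - aa v t n i) (by omega : (s - aa v t n i) + (n - s) ≤ max (n - aa v t n i) (s - aa v t n i))
      (v := v) (t := t) (i := i + aa v t n i)
    rcases le_or_gt s n with hs | hs
    · have h3 := tper_sub (s - aa v t n i) (by omega : (s - aa v t n i) + (n - s) ≤ n - aa v t n i) h1
      have e : i + (aa v t n i : ℤ) + ((s - aa v t n i : ℕ) : ℤ) = i + s := by
        push_cast [Nat.cast_sub h]; ring
      rwa [e] at h3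
    · refine ⟨1, le_refl _, ht, fun k hk => ?_⟩
      omega
  · intro h
    exact Nat.sInf_le h

omit [Finite A] in
lemma aa_congr (v : ℤ → A) {t : ℕ} (ht : 1 ≤ t) (n : ℕ) (i j : ℤ) (s : ℕ)
    (h : W v n (i + s) = W v n (j + s)) (hi : s < aa v t n i) :
    aa v t n i = aa v t n j := by
  rw [W_eq_iff] at h
  have key : ∀ r : ℕ, s ≤ r → (aa v t n i ≤ r ↔ aa v t n j ≤ r) := by
    intro r hr
    rw [aa_le_iff v ht, aa_le_iff v ht]
    have H : ∀ k : ℕ, k < n - r → v (i + r + k) = v (j + r + k) := by
      intro k hk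
      have := h (r - s + k) (by omega)
      have e1 : i + (s : ℤ) + ((r - s + k : ℕ) : ℤ) = i + r + k := by
        push_cast [Nat.cast_sub hr]; ring
      have e2 : j + (s : ℤ) + ((r - s + k : ℕ) : ℤ) = j + r + k := by
        push_cast [Nat.cast_sub hr]; ring
      rwa [e1, e2] at this
    exact ⟨tper_congr H, tper_congr fun k hk => (H k hk).symm⟩
  have h1 : s < aa v t n j := by
    by_contra hc
    have := (key s le_rfl).2 (by omega)
    omega
  apply le_antisymm
  · have := (key (aa v t n j) (by omega)).2 le_rfl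
    exact this
  · have := (key (aa v t n i) (by omega)).1 le_rfl
    exact this

omit [Finite A] in
/-- Shifts of words in one class are distinct. -/
lemma shift_inj (v : ℤ → A) {t n h : ℕ} (ht : 1 ≤ t) (hh : h + 3 * t ≤ n) {i i' : ℤ} {j j' : ℕ}
    (hj' : j' ≤ t) (hjj : j < j')
    (hcore : W v (n - h) (i + h) = W v (n - h) (i' + h))
    (ha : aa v t n i = aa v t n i') (ha1 : 1 ≤ aa v t n i)
    (hw : W v (n + h + t) (i - j) = W v (n + h + t) (i' - j')) : False := by
  rw [W_eq_iff] at hw hcore
  obtain ⟨d, rfl⟩ : ∃ d, j' = j + d := ⟨j' - j, by omega⟩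
  have hd1 : 1 ≤ d := by omega
  have hdt : d ≤ t := by omega
  -- E1
  have E1 : ∀ k : ℕ, k < n + h → v (i' + k) = v (i + (d + k : ℕ)) := by
    intro k hk
    have := hw (k + j + d) (by omega)
    have e1 : i - (j : ℤ) + ((k + j + d : ℕ) : ℤ) = i + ((d + k : ℕ) : ℤ) := by push_cast; ring
    have e2 : i' - ((j + d : ℕ) : ℤ) + ((k + j + d : ℕ) : ℤ) = i' + k := by push_cast; ring
    rw [e1, e2] at this
    exact this.symm
  rcases Nat.lt_or_ge h (aa v t n i) with hah | hah
  · -- core not periodic
    have : tper v t (i + h) (n - h) := by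
      refine ⟨d, hd1, hdt, fun k hk => ?_⟩
      have h1 := hcore k (by omega)
      have h2 := E1 (h + k) (by omega)
      have e1 : i' + (h : ℤ) + (k : ℤ) = i' + ((h + k : ℕ) : ℤ) := by push_cast; ring
      have e2 : i + ((d + (h + k) : ℕ) : ℤ) = i + (h : ℤ) + ((k + d : ℕ) : ℤ) := by push_cast; ring
      rw [h1, e1, h2, e2]
    rw [← aa_le_iff v ht] at this
    omega
  · -- core periodic
    set a := aa v t n i with hadef
    obtain ⟨q, h1, h2, h3⟩ := aa_spec v ht n i
    obtain ⟨q', h1', h2', h3'⟩ := aa_spec v ht n i'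
    rw [← hadef] at h3
    rw [← ha] at h3'
    have hcontra : tper v t (i' + (a - 1 : ℕ)) (n - (a - 1)) := by
      refine ⟨q', h1', h2', fun k hk => ?_⟩
      rcases k with _ | k
      · have b1 := E1 (a - 1) (by omega)
        have b2 := h3 (d - 1) (by omega)
        have b3 := E1 (a - 1 + q) (by omega)
        have b4 := h3' (q - 1) (by omega)
        have b5 := E1 (a - 1 + q + q') (by omega)
        have b6 := h3 (d - 1 + q') (by omega)
        have b7 := E1 (a - 1 + q') (by omega)
        have c1 : i + ((d + (a - 1) : ℕ) : ℤ) = i + (a : ℤ) + ((d - 1 : ℕ) : ℤ) := by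
          have : d + (a - 1) = a + (d - 1) := by omega
          rw [this]; push_cast; ring
        have c2 : i + (a : ℤ) + ((d - 1 + q : ℕ) : ℤ) = i + ((d + (a - 1 + q) : ℕ) : ℤ) := by
          have : d + (a - 1 + q) = a + (d - 1 + q) := by omega
          rw [this]; push_cast; ring
        have c3 : i' + ((a - 1 + q : ℕ) : ℤ) = i' + (a : ℤ) + ((q - 1 : ℕ) : ℤ) := by
          have : a - 1 + q = a + (q - 1) := by omega
          rw [this]; push_cast; ring
        have c4 : i' + (a : ℤ) + ((q - 1 + q' : ℕ) : ℤ) = i' + ((a - 1 + q + q' : ℕ) : ℤ) := by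
          have : a - 1 + q + q' = a + (q - 1 + q') := by omega
          rw [this]; push_cast; ring
        have c5 : i + ((d + (a - 1 + q + q') : ℕ) : ℤ) = i + (a : ℤ) + ((d - 1 + q' + q : ℕ) : ℤ) := by
          have : d + (a - 1 + q + q') = a + (d - 1 + q' + q) := by omega
          rw [this]; push_cast; ring
        have c6 : i + (a : ℤ) + ((d - 1 + q' : ℕ) : ℤ) = i + ((d + (a - 1 + q') : ℕ) : ℤ) := by
          have : d + (a - 1 + q') = a + (d - 1 + q') := by omega
          rw [this]; push_cast; ring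
        have c7 : i' + ((a - 1 : ℕ) : ℤ) + ((0 + q' : ℕ) : ℤ) = i' + ((a - 1 + q' : ℕ) : ℤ) := by
          push_cast; ring
        rw [c7, Nat.cast_zero, add_zero, b1, c1, b2, c2, ← b3, c3, b4, c4, b5, c5, ← b6, c6, ← b7]
      · have := h3' k (by omega)
        have e1 : i' + ((a - 1 : ℕ) : ℤ) + ((k + 1 : ℕ) : ℤ) = i' + (a : ℤ) + (k : ℤ) := by
          have : (a - 1) + (k + 1) = a + k := by omega
          rw [add_assoc, ← Nat.cast_add, this]; push_cast; ring
        have e2 : i' + ((a - 1 : ℕ) : ℤ) + ((k + 1 + q' : ℕ) : ℤ) = i' + (a : ℤ) + ((k + q' : ℕ) : ℤ) := by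
          have : (a - 1) + (k + 1 + q') = a + (k + q') := by omega
          rw [add_assoc, ← Nat.cast_add, this]; push_cast; ring
        rw [e1, e2]
        exact this
    rw [← aa_le_iff v ht, ← ha] at hcontra
    omega

/-- Representatives of the windows of length `N`. -/
lemma exists_reps (v : ℤ → A) (N : ℕ) : ∃ R : Finset ℤ, (∀ i, ∃ r ∈ R, W v N r = W v N i) ∧
    (∀ r ∈ R, ∀ r' ∈ R, W v N r = W v N r' → r = r') ∧ R.card = P v N := by
  classical
  have hfin : (Set.range (W v N)).Finite := Set.toFinite _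
  have hocc : ∀ w : Set.range (W v N), ∃ i : ℤ, W v N i = w := fun w => w.2
  choose occ hocc using hocc
  have : Fintype (Set.range (W v N)) := hfin.fintype
  have hinj : Function.Injective occ := by
    intro w w' h
    apply Subtype.ext
    rw [← hocc w, ← hocc w', h]
  refine ⟨Finset.univ.image occ, ?_, ?_, ?_⟩
  · intro i
    refine ⟨occ ⟨W v N i, i, rfl⟩, Finset.mem_image_of_mem _ (Finset.mem_univ _), hocc _⟩
  · intro r hr r' hr' h
    rw [Finset.mem_image] at hr hr'
    obtain ⟨w, -, rfl⟩ := hr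
    obtain ⟨w', -, rfl⟩ := hr'
    rw [hocc, hocc] at h
    rw [Subtype.ext h]
  · rw [Finset.card_image_of_injective _ hinj, Finset.card_univ, P]
    rw [← Nat.card_eq_fintype_card, Nat.card_coe_set_eq]

omit [Finite A] in
lemma cnt_eq_ncard (v : ℤ → A) (R : Finset ℤ) (m s : ℕ) :
    cnt (xx v) R m s = ((fun i : ℤ => W v m (i + s)) '' (R : Set ℤ)).ncard := by
  classical
  unfold cnt
  rw [← Set.ncard_coe_finset, Finset.coe_image]
  congr 1
  apply Set.image_congr
  intro i _
  exact win_xx v m s i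

/-- The main inequality for two-sided words. -/
theorem mainIneq (v : ℤ → A) {t n h : ℕ} (ht : 1 ≤ t) (hh : h + 3 * t ≤ n)
    (hM : t + 1 ≤ P v (n + h + t)) :
    (h : ℝ) * ((P v (n + 1) : ℝ) - P v n) ≤
      P v (n + 1) * ∑ s ∈ range h, 1 / (((n - s) - 2 * t + 1 : ℕ) : ℝ)
        + P v (n + h) * logb 2 (P v (n + h + t) / (t + 1)) / 2 := by
  classical
  obtain ⟨R, hR1, hR2, hR3⟩ := exists_reps v (n + h)
  set x := xx v with hx
  set κ : ℤ → (Fin (n - h) → A) × ℕ := fun i => (W v (n - h) (i + h), aa v t n i) with hκ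
  set K0 := (R.filter fun i => 1 ≤ aa v t n i).image κ with hK0
  set Rc : (Fin (n - h) → A) × ℕ → Finset ℤ := fun c => R.filter fun i => κ i = c with hRc
  -- class sizes
  have hsize : ∀ c ∈ K0, (Rc c).card * (t + 1) ≤ P v (n + h + t) := by
    intro c hc
    rw [hK0, Finset.mem_image] at hc
    obtain ⟨i0, hi0, rfl⟩ := hc
    rw [Finset.mem_filter] at hi0
    have hinj : Set.InjOn (fun p : ℤ × ℕ => W v (n + h + t) (p.1 - p.2))
        ((Rc (κ i0)) ×ˢ (range (t + 1)) : Finset (ℤ × ℕ)) := by
      have main : ∀ i j i' j', i ∈ Rc (κ i0) → j < t + 1 → i' ∈ Rc (κ i0) → j' < t + 1 →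
          W v (n + h + t) (i - (j : ℕ)) = W v (n + h + t) (i' - (j' : ℕ)) → ¬ j < j' := by
        intro i j i' j' hi hj hi' hj' he hlt
        simp only [hRc, Finset.mem_filter, hκ, Prod.mk.injEq] at hi hi'
        exact shift_inj v ht hh (by omega) hlt (hi.2.1.trans hi'.2.1.symm)
          (hi.2.2.trans hi'.2.2.symm) (by rw [hi.2.2]; exact hi0.2) he
      rintro ⟨i, j⟩ hp ⟨i', j'⟩ hp' he
      simp only [Finset.coe_product, Set.mem_prod, Finset.mem_coe, Finset.mem_range] at hp hp' he
      have hj : j = j' := by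
        have h1 := main i j i' j' hp.1 hp.2 hp'.1 hp'.2 he
        have h2 := main i' j' i j hp'.1 hp'.2 hp.1 hp.2 he.symm
        omega
      subst hj
      have hi : i = i' := by
        apply hR2 i (Finset.mem_filter.1 hp.1).1 i' (Finset.mem_filter.1 hp'.1).1
        rw [W_eq_iff] at he ⊢
        intro k hk
        have := he (j + k) (by omega)
        have e1 : i - (j : ℤ) + ((j + k : ℕ) : ℤ) = i + k := by push_cast; ring
        have e2 : i' - (j : ℤ) + ((j + k : ℕ) : ℤ) = i' + k := by push_cast; ring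
        rwa [e1, e2] at this
      rw [hi]
    have hcard : ((Rc (κ i0)) ×ˢ (range (t + 1)) : Finset (ℤ × ℕ)).card = (Rc (κ i0)).card * (t + 1) := by
      rw [Finset.card_product, Finset.card_range]
    rw [← hcard, ← Set.ncard_coe_finset]
    apply Set.ncard_le_ncard_of_injOn (fun p : ℤ × ℕ => W v (n + h + t) (p.1 - p.2)) _ hinj (Set.toFinite _)
    rintro p -
    exact ⟨_, rfl⟩
  set M0 : ℝ := P v (n + h + t) / (t + 1) with hM0
  have hsize' : ∀ c ∈ K0, ((Rc c).card : ℝ) ≤ M0 := by
    intro c hc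
    rw [hM0, le_div_iff₀ (by positivity)]
    exact_mod_cast hsize c hc
  have hKne : ∀ c ∈ K0, 1 ≤ (Rc c).card := by
    intro c hc
    rw [hK0, Finset.mem_image] at hc
    obtain ⟨i0, hi0, rfl⟩ := hc
    rw [Finset.mem_filter] at hi0
    apply Finset.card_pos.2
    exact ⟨i0, Finset.mem_filter.2 ⟨hi0.1, rfl⟩⟩
  -- the count at one position
  have hpos : ∀ s ∈ range h, ((P v (n + 1) : ℝ) - P v n) ≤
      P v (n + 1) * (1 / (((n - s) - 2 * t + 1 : ℕ) : ℝ))
        + ∑ c ∈ K0, ((cnt x (Rc c) (n + 1) s : ℝ) - cnt x (Rc c) n s) := by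
    intro s hs
    rw [Finset.mem_range] at hs
    set R1 := R.filter fun i => aa v t n i ≤ s with hR1d
    set R2' := R.filter fun i => ¬ aa v t n i ≤ s with hR2d
    -- all windows appear
    have hall : ∀ m, m ≤ n + 1 → P v m = cnt x R m s := by
      intro m hm
      rw [hx, cnt_eq_ncard, P]
      congr 1
      apply Set.Subset.antisymm
      · rintro w ⟨i, rfl⟩
        obtain ⟨r, hr, he⟩ := hR1 (i - s)
        refine ⟨r, hr, ?_⟩
        simp only
        rw [W_eq_iff] at he ⊢
        intro k hk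
        have := he (s + k) (by omega)
        have e1 : r + ((s + k : ℕ) : ℤ) = r + s + k := by push_cast; ring
        have e2 : i - (s : ℤ) + ((s + k : ℕ) : ℤ) = i + k := by push_cast; ring
        rwa [e1, e2] at this
      · rintro w ⟨i, -, rfl⟩
        exact ⟨_, rfl⟩
    -- good and bad windows are different
    have hagr : ∀ m, n ≤ m → ∀ i j : ℤ, W v m (i + s) = W v m (j + s) →
        (aa v t n i ≤ s ↔ aa v t n j ≤ s) := by
      intro m hm i j he
      rw [aa_le_iff v ht, aa_le_iff v ht]
      rw [W_eq_iff] at he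
      exact ⟨tper_congr fun k hk => he k (by omega), tper_congr fun k hk => (he k (by omega)).symm⟩
    have hsplit : ∀ m, n ≤ m → cnt x R m s = cnt x R1 m s + cnt x R2' m s := by
      intro m hm
      unfold cnt
      have e : R.image (win x m s) = R1.image (win x m s) ∪ R2'.image (win x m s) := by
        rw [← Finset.image_union, hR1d, hR2d, Finset.filter_union_filter_not_eq]
      rw [e, Finset.card_union_of_disjoint]
      rw [Finset.disjoint_left]
      intro w hw hw'
      rw [Finset.mem_image] at hw hw'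
      obtain ⟨i, hi, rfl⟩ := hw
      obtain ⟨j, hj, he⟩ := hw'
      rw [hR1d, Finset.mem_filter] at hi
      rw [hR2d, Finset.mem_filter] at hj
      rw [hx, win_xx, win_xx] at he
      exact hj.2 ((hagr m hm j i he).2 hi.2)
    -- bad part
    have hbad : ∀ m, n ≤ m → m ≤ n + 1 → cnt x R1 m s = (XS v t m (n - s)).ncard := by
      intro m hm hm'
      rw [hx, cnt_eq_ncard]
      congr 1
      apply Set.Subset.antisymm
      · rintro w ⟨i, hi, rfl⟩
        rw [Finset.mem_coe, hR1d, Finset.mem_filter, aa_le_iff v ht] at hi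
        exact ⟨i + s, hi.2, rfl⟩
      · rintro w ⟨i, hi, rfl⟩
        obtain ⟨r, hr, he⟩ := hR1 (i - s)
        have H : ∀ k : ℕ, k < n + 1 → v (r + s + k) = v (i + k) := by
          rw [W_eq_iff] at he
          intro k hk
          have := he (s + k) (by omega)
          have e1 : r + ((s + k : ℕ) : ℤ) = r + s + k := by push_cast; ring
          have e2 : i - (s : ℤ) + ((s + k : ℕ) : ℤ) = i + k := by push_cast; ring
          rwa [e1, e2] at this
        refine ⟨r, ?_, ?_⟩
        · rw [Finset.mem_coe, hR1d, Finset.mem_filter, aa_le_iff v ht]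
          exact ⟨hr, tper_congr (fun k hk => (H k (by omega)).symm) hi⟩
        · simp only
          rw [W_eq_iff]
          intro k hk
          exact H k (by omega)
    have hbadle := perBound v (t := t) (n := n) (l := n - s) (by omega) (by omega)
    -- good part
    have hgood : ∀ m, n ≤ m → cnt x R2' m s = ∑ c ∈ R2'.image κ, cnt x (Rc c) m s := by
      intro m hm
      have h1 : cnt x R2' m s = ∑ c ∈ R2'.image κ, cnt x (R2'.filter fun i => κ i = c) m s := by
        unfold cnt
        apply card_image_eq_sum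
        intro i hi j hj he
        rw [hx, win_xx, win_xx] at he
        rw [hR2d, Finset.mem_filter] at hi
        have he' : W v n (i + s) = W v n (j + s) := by
          rw [W_eq_iff] at he ⊢
          intro k hk
          exact he k (by omega)
        simp only [hκ, Prod.mk.injEq]
        refine ⟨?_, aa_congr v ht n i j s he' (by omega)⟩
        rw [W_eq_iff] at he' ⊢
        intro k hk
        have := he' (h - s + k) (by omega)
        have e1 : i + (s : ℤ) + ((h - s + k : ℕ) : ℤ) = i + h + k := by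
          push_cast [Nat.cast_sub hs.le]; ring
        have e2 : j + (s : ℤ) + ((h - s + k : ℕ) : ℤ) = j + h + k := by
          push_cast [Nat.cast_sub hs.le]; ring
        rwa [e1, e2] at this
      rw [h1]
      apply Finset.sum_congr rfl
      intro c hc
      congr 1
      rw [Finset.mem_image] at hc
      obtain ⟨i0, hi0, rfl⟩ := hc
      rw [hR2d, Finset.mem_filter] at hi0
      ext i
      simp only [hR2d, hRc, Finset.mem_filter]
      constructor
      · rintro ⟨⟨a, -⟩, b⟩
        exact ⟨a, b⟩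
      · rintro ⟨a, b⟩
        refine ⟨⟨a, ?_⟩, b⟩
        have : aa v t n i = aa v t n i0 := by
          have := congrArg Prod.snd b
          simpa [hκ] using this
        rw [this]
        exact hi0.2
    have hsub : R2'.image κ ⊆ K0 := by
      rw [hK0]
      apply Finset.image_subset_image
      intro i hi
      rw [hR2d, Finset.mem_filter] at hi
      rw [Finset.mem_filter]
      exact ⟨hi.1, by omega⟩
    have hle : ∑ c ∈ R2'.image κ, ((cnt x (Rc c) (n + 1) s : ℝ) - cnt x (Rc c) n s)
        ≤ ∑ c ∈ K0, ((cnt x (Rc c) (n + 1) s : ℝ) - cnt x (Rc c) n s) := by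
      apply Finset.sum_le_sum_of_subset_of_nonneg hsub
      intro c _ _
      have := cnt_le_succ x (Rc c) n s
      have : (cnt x (Rc c) n s : ℝ) ≤ cnt x (Rc c) (n + 1) s := by exact_mod_cast this
      linarith
    have hP1 := hall (n + 1) le_rfl
    have hP0 := hall n (by omega)
    rw [hsplit (n + 1) (by omega), hbad (n + 1) (by omega) le_rfl, hgood (n + 1) (by omega)] at hP1
    rw [hsplit n le_rfl, hbad n le_rfl (by omega), hgood n le_rfl] at hP0
    have hP1' : (P v (n + 1) : ℝ) = (XS v t (n + 1) (n - s)).ncard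
        + ∑ c ∈ R2'.image κ, (cnt x (Rc c) (n + 1) s : ℝ) := by
      rw [hP1]; push_cast; ring
    have hP0' : (P v n : ℝ) = (XS v t n (n - s)).ncard
        + ∑ c ∈ R2'.image κ, (cnt x (Rc c) n s : ℝ) := by
      rw [hP0]; push_cast; ring
    have hdiff : (P v (n + 1) : ℝ) - P v n
        = ((XS v t (n + 1) (n - s)).ncard - (XS v t n (n - s)).ncard)
          + ∑ c ∈ R2'.image κ, ((cnt x (Rc c) (n + 1) s : ℝ) - cnt x (Rc c) n s) := by
      rw [hP1', hP0', Finset.sum_sub_distrib]
      ring
    rw [hdiff, mul_one_div]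
    linarith
  -- summation
  have hsum := Finset.sum_le_sum hpos
  rw [Finset.sum_const, Finset.card_range, nsmul_eq_mul, Finset.sum_add_distrib,
    ← Finset.mul_sum, Finset.sum_comm] at hsum
  refine hsum.trans ?_
  have hE : ∑ c ∈ K0, ∑ s ∈ range h, ((cnt x (Rc c) (n + 1) s : ℝ) - cnt x (Rc c) n s)
      ≤ ∑ c ∈ K0, ((Rc c).card : ℝ) * (logb 2 M0 / 2) := by
    apply Finset.sum_le_sum
    intro c hc
    have h1 := lemmaE x n h 0 (Rc c) (by omega)
    simp only [zero_add] at h1
    refine h1.trans ?_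
    unfold phi
    have h2 : (1 : ℝ) ≤ (Rc c).card := by exact_mod_cast hKne c hc
    have h3 : logb 2 ((Rc c).card : ℝ) ≤ logb 2 M0 :=
      Real.logb_le_logb_of_le (by norm_num) (by linarith) (hsize' c hc)
    have h4 : ((Rc c).card : ℝ) * logb 2 ((Rc c).card : ℝ) ≤ (Rc c).card * logb 2 M0 :=
      mul_le_mul_of_nonneg_left h3 (by linarith)
    linarith
  rw [← Finset.sum_mul] at hE
  -- M0 ≥ 1 or no class
  rcases K0.eq_empty_or_nonempty with hK | ⟨c0, hc0⟩
  · rw [hK] at hE ⊢
    simp only [Finset.sum_empty, add_zero]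
    have : 0 ≤ (P v (n + h) : ℝ) * logb 2 M0 / 2 := by
      have hM1 : 1 ≤ M0 := by
        rw [hM0, le_div_iff₀ (by positivity), one_mul]
        exact_mod_cast hM
      have := Real.logb_nonneg (by norm_num : (1:ℝ) < 2) hM1
      positivity
    linarith
  · have hM1 : 1 ≤ M0 := by
      have h1 := hsize' c0 hc0
      have h2 : (1 : ℝ) ≤ (Rc c0).card := by exact_mod_cast hKne c0 hc0
      linarith
    have hcardsum : ∑ c ∈ K0, ((Rc c).card : ℝ) ≤ P v (n + h) := by
      rw [← hR3]
      have : ∑ c ∈ K0, (Rc c).card ≤ R.card := by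
        rw [Finset.card_eq_sum_card_image κ R]
        apply Finset.sum_le_sum_of_subset
        rw [hK0]
        exact Finset.image_subset_image (Finset.filter_subset _ _)
      exact_mod_cast this
    have hl := Real.logb_nonneg (by norm_num : (1:ℝ) < 2) hM1
    have : (∑ c ∈ K0, ((Rc c).card : ℝ)) * (logb 2 M0 / 2) ≤ P v (n + h) * (logb 2 M0 / 2) :=
      mul_le_mul_of_nonneg_right hcardsum (by positivity)
    linarith

end

end Pool.Agent.Helper13.FacComp
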