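import Pool.Agent.Helper13.FacComp.Main
import Pool.Agent.Helper13.FacComp.Defs

namespace Pool.Agent.Helper13.FacComp

open Finset Real

section

variable {A : Type} [Finite A]

/-- The inequality without periodicity considerations. -/
theorem simpleIneq (v : ℤ → A) (n : ℕ) :
    (n : ℝ) * ((P v (n + 1) : ℝ) - P v n) ≤ phi (P v (n + n)) := by
  classical
  obtain ⟨R, hR1, hR2, hR3⟩ := exists_reps v (n + n)
  have hall : ∀ s m, s + m ≤ n + n → P v m = cnt (xx v) R m s := by
    intro s m hm
    rw [cnt_eq_ncard, P]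
    congr 1
    apply Set.Subset.antisymm
    · rintro w ⟨i, rfl⟩
      obtain ⟨r, hr, he⟩ := hR1 (i - s)
      refine ⟨r, hr, ?_⟩
      simp only
      rw [W_eq_iff] at he ⊢
      intro k hk
      have := he (s + k) (by omega)
      have e1 : r + ((s + k : ℕ) : ℤ) = r + s + k := by push_cast; ring
      have e2 : i - (s : ℤ) + ((s + k : ℕ) : ℤ) = i + k := by push_cast; ring
      rwa [e1, e2] at this
    · rintro w ⟨i, -, rfl⟩
      exact ⟨_, rfl⟩
  have h1 := lemmaE (xx v) n n 0 R (by omega)
  rw [hR3] at h1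
  refine le_trans (le_of_eq ?_) h1
  rw [Finset.sum_congr rfl (g := fun _ => ((P v (n + 1) : ℝ) - P v n))]
  · rw [Finset.sum_const, Finset.card_range, nsmul_eq_mul]
  · intro s hs
    rw [Finset.mem_range] at hs
    rw [zero_add, ← hall s (n + 1) (by omega), ← hall s n (by omega)]

/-- The padded word. -/
def pad (u : ℕ → A) : ℤ → Option A := fun i => if 0 ≤ i then some (u i.toNat) else none

lemma P_pad (u : ℕ → A) (m : ℕ) : P (pad u) m = complexity u m + m := by
  classical
  set S1 : Set (Fin m → Option A) := (fun w k => some (w k)) '' factors u m with hS1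
  set S2 : Set (Fin m → Option A) := (fun j : ℕ => W (pad u) m (-((j : ℤ) + 1))) '' (Set.Iio m) with hS2
  have hpos : ∀ i : ℕ, W (pad u) m (i : ℤ) = fun k : Fin m => some (u (i + k)) := by
    intro i
    funext k
    have h1 : (0 : ℤ) ≤ (i : ℤ) + ((k : ℕ) : ℤ) := by positivity
    simp only [W, pad, if_pos h1]
    congr 2
  have hrange : Set.range (W (pad u) m) = S1 ∪ S2 := by
    apply Set.Subset.antisymm
    · rintro w ⟨i, rfl⟩
      rcases lt_or_ge i 0 with hi | hi
      · rcases Nat.eq_zero_or_pos m with hm | hm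
        · left
          subst hm
          exact ⟨_, ⟨0, rfl⟩, Subsingleton.elim _ _⟩
        · right
          obtain ⟨j, rfl⟩ : ∃ j : ℕ, i = -((j : ℤ) + 1) := ⟨(-i - 1).toNat, by omega⟩
          rcases Nat.lt_or_ge j m with hj | hj
          · exact ⟨j, hj, rfl⟩
          · refine ⟨m - 1, by simp only [Set.mem_Iio]; omega, ?_⟩
            funext k
            have hk := k.2
            have h1 : ¬ (0 : ℤ) ≤ -(((m - 1 : ℕ) : ℤ) + 1) + ((k : ℕ) : ℤ) := by omega
            have h2 : ¬ (0 : ℤ) ≤ -((j : ℤ) + 1) + ((k : ℕ) : ℤ) := by omega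
            simp only [W, pad, if_neg h1, if_neg h2]
      · left
        obtain ⟨j, rfl⟩ : ∃ j : ℕ, i = (j : ℤ) := ⟨i.toNat, by omega⟩
        exact ⟨_, ⟨j, rfl⟩, (hpos j).symm⟩
    · rintro w (⟨w', ⟨i, rfl⟩, rfl⟩ | ⟨j, -, rfl⟩)
      · exact ⟨(i : ℤ), hpos i⟩
      · exact ⟨_, rfl⟩
  have hdisj : Disjoint S1 S2 := by
    rw [Set.disjoint_left]
    rintro w ⟨w', ⟨i, rfl⟩, rfl⟩ ⟨j, hj, he⟩
    have hj' : j < m := hj
    have := congrFun he ⟨0, by omega⟩
    simp only [W, pad] at this
    rw [if_neg (by push_cast; omega)] at this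
    exact absurd this (by simp)
  have hc1 : S1.ncard = complexity u m := by
    rw [hS1, Set.ncard_image_of_injective]
    · rfl
    · intro w w' h
      funext k
      have := congrFun h k
      simpa using this
  have hc2 : S2.ncard = m := by
    rw [hS2, Set.ncard_image_of_injOn]
    · rw [← Finset.coe_range, Set.ncard_coe_finset, Finset.card_range]
    · have main : ∀ j j' : ℕ, j' < m →
          W (pad u) m (-((j : ℤ) + 1)) = W (pad u) m (-((j' : ℤ) + 1)) → ¬ j < j' := by
        intro j j' hj' h hlt
        have := congrFun h ⟨j + 1, by omega⟩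
        simp only [W, pad] at this
        rw [if_pos (by push_cast; omega), if_neg (by push_cast; omega)] at this
        exact absurd this (by simp)
      intro j hj j' hj' h
      have hj1 : j < m := hj
      have hj2 : j' < m := hj'
      have h1 := main j j' hj2 h
      have h2 := main j' j hj1 h.symm
      omega
  rw [P, hrange, Set.ncard_union_eq hdisj (Set.toFinite _) (Set.toFinite _), hc1, hc2]

end

end Pool.Agent.Helper13.FacComp
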