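import Pool.Agent.Helper13.FacComp.LemmaE

namespace Pool.Agent.Helper13.FacComp

open Finset Real

section

variable {A : Type}

/-- Window of length `n` at `i` of the two-sided word `v`. -/
def W (v : ℤ → A) (n : ℕ) (i : ℤ) : Fin n → A := fun k => v (i + (k : ℕ))

/-- Complexity of a two-sided word. -/
noncomputable def P (v : ℤ → A) (n : ℕ) : ℕ := (Set.range (W v n)).ncard

/-- `v[i, i+m)` has a period `≤ t`. -/
def tper (v : ℤ → A) (t : ℕ) (i : ℤ) (m : ℕ) : Prop :=
  ∃ q : ℕ, 1 ≤ q ∧ q ≤ t ∧ ∀ k : ℕ, k + q < m → v (i + k) = v (i + (k + q : ℕ))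

lemma W_eq_iff {v : ℤ → A} {n : ℕ} {i j : ℤ} :
    W v n i = W v n j ↔ ∀ k : ℕ, k < n → v (i + k) = v (j + k) := by
  constructor
  · intro h k hk
    exact congrFun h ⟨k, hk⟩
  · intro h
    funext k
    exact h k k.2

lemma tper_congr {v : ℤ → A} {t m : ℕ} {i j : ℤ} (h : ∀ k : ℕ, k < m → v (i + k) = v (j + k))
    (hi : tper v t i m) : tper v t j m := by
  obtain ⟨q, h1, h2, h3⟩ := hi
  refine ⟨q, h1, h2, fun k hk => ?_⟩
  rw [← h k (by omega), ← h (k + q) hk]
  exact h3 k hk

lemma tper_sub {v : ℤ → A} {t m m' : ℕ} {i : ℤ} (d : ℕ) (hd : d + m' ≤ m)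
    (hi : tper v t i m) : tper v t (i + d) m' := by
  obtain ⟨q, h1, h2, h3⟩ := hi
  refine ⟨q, h1, h2, fun k hk => ?_⟩
  have := h3 (d + k) (by omega)
  push_cast at this ⊢
  rw [add_assoc, this]
  congr 1
  ring

lemma tper_mono {v : ℤ → A} {t m m' : ℕ} {i : ℤ} (h : m' ≤ m)
    (hi : tper v t i m) : tper v t i m' := by
  have := tper_sub 0 (by omega : 0 + m' ≤ m) hi
  simpa using this

/-- The letter before a long periodic word is determined. -/
lemma head_eq {v : ℤ → A} {t l : ℕ} {i j : ℤ} (hl : 2 * t ≤ l) (hi : tper v t i (l + 1))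
    (hj : tper v t j (l + 1)) (h : ∀ k : ℕ, k < l → v (i + 1 + k) = v (j + 1 + k)) :
    v i = v j := by
  obtain ⟨q, h1, h2, h3⟩ := hi
  obtain ⟨q', h1', h2', h3'⟩ := hj
  have H : ∀ k : ℕ, 1 ≤ k → k ≤ l → v (i + k) = v (j + k) := by
    intro k hk hk'
    have := h (k - 1) (by omega)
    have e : ((k - 1 : ℕ) : ℤ) = (k : ℤ) - 1 := by push_cast [Nat.cast_sub hk]; ring
    rw [e] at this
    have e1 : i + 1 + ((k : ℤ) - 1) = i + k := by ring
    have e2 : j + 1 + ((k : ℤ) - 1) = j + k := by ring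
    rwa [e1, e2] at this
  have a1 := h3 0 (by omega)
  have a2 := H q h1 (by omega)
  have a3 := h3' q (by omega)
  have a4 := H (q + q') (by omega) (by omega)
  have a5 := h3 q' (by omega)
  have a6 := H q' h1' (by omega)
  have a7 := h3' 0 (by omega)
  simp only [Nat.cast_zero, add_zero, zero_add] at a1 a7
  rw [a1, a2, a3, ← a4, add_comm q q', ← a5, a6, ← a7]

/-- Windows of length `m` whose prefix of length `l` has a period `≤ t`. -/
def XS (v : ℤ → A) (t m l : ℕ) : Set (Fin m → A) := (W v m) '' {i | tper v t i l}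

lemma mem_XS {v : ℤ → A} {t m l : ℕ} (h : l ≤ m) (i : ℤ) : W v m i ∈ XS v t m l ↔ tper v t i l := by
  constructor
  · rintro ⟨j, hj, e⟩
    rw [W_eq_iff] at e
    exact tper_congr (fun k hk => e k (by omega)) hj
  · intro hi
    exact ⟨i, hi, rfl⟩

lemma XS_anti {v : ℤ → A} {t m l l' : ℕ} (h : l ≤ l') : XS v t m l' ⊆ XS v t m l := by
  rintro w ⟨i, hi, rfl⟩
  exact ⟨i, tper_mono h hi, rfl⟩

variable [Finite A]

lemma claimA (v : ℤ → A) {t n l : ℕ} (hl : 2 * t ≤ l) (hn : l ≤ n) :
    (XS v t (n + 1) (l + 1)).ncard ≤ (XS v t n l).ncard := by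
  apply Set.ncard_le_ncard_of_injOn (fun w k => w (Fin.succ k)) _ _ (Set.toFinite _)
  · rintro w ⟨i, hi, rfl⟩
    refine ⟨i + 1, ?_, ?_⟩
    · have := tper_sub 1 (by omega : 1 + l ≤ l + 1) hi
      simpa using this
    · funext k
      simp only [W, Fin.val_succ]
      push_cast
      congr 1
      ring
  · rintro w ⟨i, hi, rfl⟩ w' ⟨j, hj, rfl⟩ h
    have H : ∀ k : ℕ, k < n → v (i + 1 + k) = v (j + 1 + k) := by
      intro k hk
      have := congrFun h ⟨k, hk⟩
      simp only [W, Fin.val_succ] at this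
      push_cast at this
      have e1 : i + ((k : ℤ) + 1) = i + 1 + k := by ring
      have e2 : j + ((k : ℤ) + 1) = j + 1 + k := by ring
      rwa [e1, e2] at this
    have h0 : v i = v j := head_eq hl hi hj fun k hk => H k (by omega)
    rw [W_eq_iff]
    intro k hk
    rcases k with _ | k
    · simpa using h0
    · have := H k (by omega)
      push_cast
      have e1 : i + ((k : ℤ) + 1) = i + 1 + k := by ring
      have e2 : j + ((k : ℤ) + 1) = j + 1 + k := by ring
      rw [e1, e2]
      exact this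

lemma claimB (v : ℤ → A) {t n l : ℕ} (hl : 2 * t ≤ l) (hn : l + 1 ≤ n) :
    (XS v t (n + 1) (l + 1) \ XS v t (n + 1) (l + 2)).ncard
      ≤ (XS v t (n + 1) l \ XS v t (n + 1) (l + 1)).ncard := by
  classical
  -- choose an occurrence
  have hocc : ∀ w : Fin (n + 1) → A, ∃ i : ℤ, w ∈ Set.range (W v (n + 1)) → W v (n + 1) i = w := by
    intro w
    by_cases h : w ∈ Set.range (W v (n + 1))
    · obtain ⟨i, hi⟩ := h
      exact ⟨i, fun _ => hi⟩
    · exact ⟨0, fun h' => absurd h' h⟩
  choose occ hocc using hocc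
  have hr : ∀ l' : ℕ, ∀ w ∈ XS v t (n + 1) l', W v (n + 1) (occ w) = w := by
    rintro l' w ⟨i, -, rfl⟩
    exact hocc _ ⟨i, rfl⟩
  apply Set.ncard_le_ncard_of_injOn (fun w => W v (n + 1) (occ w + 1)) _ _ (Set.toFinite _)
  · rintro w ⟨hw1, hw2⟩
    have ho := hr _ w hw1
    rw [← ho] at hw1 hw2
    rw [mem_XS (by omega)] at hw1 hw2
    constructor
    · rw [mem_XS (by omega)]
      have := tper_sub 1 (by omega : 1 + l ≤ l + 1) hw1
      simpa using this
    · rw [mem_XS (by omega)]
      intro hc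
      apply hw2
      obtain ⟨q, h1, h2, h3⟩ := hw1
      obtain ⟨q', h1', h2', h3'⟩ := hc
      refine ⟨q, h1, h2, fun k hk => ?_⟩
      rcases Nat.lt_or_ge (k + q) (l + 1) with h | h
      · exact h3 k h
      · have hk' : k = l + 1 - q := by omega
        have b1 := h3' (l - q') (by omega)
        have b2 := h3 (l + 1 - q' - q) (by omega)
        have b3 := h3' (l - q - q') (by omega)
        have c1 : occ w + 1 + ((l - q' + q' : ℕ) : ℤ) = occ w + ((k + q : ℕ) : ℤ) := by
          have : l - q' + q' = l := by omega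
          rw [this]
          have : k + q = l + 1 := by omega
          rw [this]
          push_cast; ring
        have c2 : occ w + 1 + ((l - q' : ℕ) : ℤ) = occ w + ((l + 1 - q' - q + q : ℕ) : ℤ) := by
          have : l + 1 - q' - q + q = (l - q') + 1 := by omega
          rw [this]; push_cast; ring
        have c3 : occ w + ((l + 1 - q' - q : ℕ) : ℤ) = occ w + 1 + ((l - q - q' : ℕ) : ℤ) := by
          have : l + 1 - q' - q = (l - q - q') + 1 := by omega
          rw [this]; push_cast; ring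
        have c4 : occ w + 1 + ((l - q - q' + q' : ℕ) : ℤ) = occ w + ((k : ℕ) : ℤ) := by
          have : l - q - q' + q' = l - q := by omega
          rw [this]
          have : k = (l - q) + 1 := by omega
          rw [this]; push_cast; ring
        rw [c1] at b1
        rw [c2] at b1
        rw [c3] at b2
        rw [c4] at b3
        rw [← b1, ← b2, ← b3]
  · rintro w ⟨hw1, -⟩ w' ⟨hw1', -⟩ h
    have ho := hr _ w hw1
    have ho' := hr _ w' hw1'
    rw [← ho, mem_XS (by omega)] at hw1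
    rw [← ho', mem_XS (by omega)] at hw1'
    rw [← ho, ← ho']
    simp only at h
    rw [W_eq_iff] at h
    have h0 : v (occ w) = v (occ w') := head_eq hl hw1 hw1' fun k hk => h k (by omega)
    rw [W_eq_iff]
    intro k hk
    rcases k with _ | k
    · simpa using h0
    · have := h k (by omega)
      push_cast
      have e1 : occ w + ((k : ℤ) + 1) = occ w + 1 + k := by ring
      have e2 : occ w' + ((k : ℤ) + 1) = occ w' + 1 + k := by ring
      rw [e1, e2]
      exact this

lemma claimC (v : ℤ → A) {t n : ℕ} (d : ℕ) (hn : 2 * t + d ≤ n) :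
    (d + 1) * (XS v t (n + 1) (2 * t + d) \ XS v t (n + 1) (2 * t + d + 1)).ncard
      + (XS v t (n + 1) (2 * t + d + 1)).ncard ≤ P v (n + 1) := by
  have hstep : ∀ l, (XS v t (n + 1) l \ XS v t (n + 1) (l + 1)).ncard
      + (XS v t (n + 1) (l + 1)).ncard = (XS v t (n + 1) l).ncard := fun l =>
    Set.ncard_sdiff_add_ncard_of_subset (XS_anti (by omega)) (Set.toFinite _)
  induction d with
  | zero =>
    have h1 : (XS v t (n + 1) (2 * t + 0)).ncard ≤ P v (n + 1) :=
      Set.ncard_le_ncard (by rintro w ⟨i, -, rfl⟩; exact ⟨i, rfl⟩) (Set.toFinite _)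
    have := hstep (2 * t + 0)
    omega
  | succ d ih =>
    have ih' := ih (by omega)
    have h2 := claimB v (t := t) (n := n) (l := 2 * t + d) (by omega) (by omega)
    have h3 := hstep (2 * t + (d + 1))
    have e1 : 2 * t + (d + 1) = 2 * t + d + 1 := by omega
    rw [e1] at h3 ⊢
    have e2 : 2 * t + d + 2 = 2 * t + d + 1 + 1 := by omega
    rw [e2] at h2
    set x := (XS v t (n + 1) (2 * t + d + 1) \ XS v t (n + 1) (2 * t + d + 1 + 1)).ncard
    set y := (XS v t (n + 1) (2 * t + d) \ XS v t (n + 1) (2 * t + d + 1)).ncard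
    have h4 : (d + 1) * x ≤ (d + 1) * y := Nat.mul_le_mul_left _ h2
    have e3 : (d + 1 + 1) * x = (d + 1) * x + x := by ring
    omega

/-- Right special words with a long periodic prefix are few. -/
lemma perBound (v : ℤ → A) {t n l : ℕ} (hl : 2 * t ≤ l) (hn : l ≤ n) :
    ((XS v t (n + 1) l).ncard : ℝ) - (XS v t n l).ncard ≤ P v (n + 1) / ((l - 2 * t + 1 : ℕ) : ℝ) := by
  obtain ⟨d, rfl⟩ : ∃ d, l = 2 * t + d := ⟨l - 2 * t, by omega⟩
  have h1 := claimC v (t := t) (n := n) d hn
  have h2 := claimA v (t := t) (n := n) (l := 2 * t + d) (by omega) hn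
  have h3 : (XS v t (n + 1) (2 * t + d) \ XS v t (n + 1) (2 * t + d + 1)).ncard
      + (XS v t (n + 1) (2 * t + d + 1)).ncard = (XS v t (n + 1) (2 * t + d)).ncard :=
    Set.ncard_sdiff_add_ncard_of_subset (XS_anti (by omega)) (Set.toFinite _)
  set x := (XS v t (n + 1) (2 * t + d) \ XS v t (n + 1) (2 * t + d + 1)).ncard
  have h4 : (d + 1) * x ≤ P v (n + 1) := by omega
  have h5 : ((d : ℝ) + 1) * x ≤ P v (n + 1) := by exact_mod_cast h4
  have h6 : ((XS v t (n + 1) (2 * t + d)).ncard : ℝ) - (XS v t n (2 * t + d)).ncard ≤ x := by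
    have : (XS v t (n + 1) (2 * t + d)).ncard ≤ x + (XS v t n (2 * t + d)).ncard := by omega
    have : ((XS v t (n + 1) (2 * t + d)).ncard : ℝ) ≤ x + (XS v t n (2 * t + d)).ncard := by
      exact_mod_cast this
    linarith
  have h7 : 2 * t + d - 2 * t + 1 = d + 1 := by omega
  rw [h7]
  push_cast
  refine h6.trans ?_
  rw [le_div_iff₀ (by positivity)]
  linarith

end

end Pool.Agent.Helper13.FacComp
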