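import Mathlib

namespace Pool.Agent.Helper13.FacComp

open Polynomial

lemma zmod2 (x : ZMod 2) : x = 0 ∨ x = 1 := by
  revert x
  decide

/-- A binary sequence of maximal period: its first `2^(k+1) - 1` windows of length `k+1` are
distinct. -/
theorem exists_seq (k : ℕ) : ∃ c : ℕ → Bool, ∀ i j : ℕ, i < 2 ^ (k + 1) - 1 → j < 2 ^ (k + 1) - 1 →
    (∀ t ≤ k, c (i + t) = c (j + t)) → i = j := by
  classical
  have : Fact (Nat.Prime 2) := ⟨Nat.prime_two⟩
  let K := GaloisField 2 (k + 1)
  have hfin : Finite K := inferInstance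
  let _ : Fintype K := Fintype.ofFinite K
  have hcard : Nat.card K = 2 ^ (k + 1) := GaloisField.card 2 (k + 1) (by omega)
  have hrank : Module.finrank (ZMod 2) K = k + 1 := GaloisField.finrank 2 (by omega)
  obtain ⟨g, hg⟩ := IsCyclic.exists_generator (α := Kˣ)
  have hord : orderOf g = 2 ^ (k + 1) - 1 := by
    rw [orderOf_eq_card_of_forall_mem_zpowers hg, Nat.card_units, hcard]
  let b := Module.finBasis (ZMod 2) K
  let i0 : Fin (Module.finrank (ZMod 2) K) := ⟨0, by omega⟩
  let φ : K →ₗ[ZMod 2] ZMod 2 := b.coord i0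
  have hφ : φ (b i0) = 1 := by simp [φ]
  have hz : ∀ x : ZMod 2, x = 0 ∨ x = 1 := zmod2
  refine ⟨fun i => decide (φ ((g : K) ^ i) = 1), ?_⟩
  intro i j hi hj h
  have h' : ∀ t ≤ k, φ ((g : K) ^ (i + t)) = φ ((g : K) ^ (j + t)) := by
    intro t ht
    have := h t ht
    rw [decide_eq_decide] at this
    rcases hz (φ ((g : K) ^ (i + t))) with h1 | h1 <;> rcases hz (φ ((g : K) ^ (j + t))) with h2 | h2
    · rw [h1, h2]
    · rw [h1, h2] at this; simp at this
    · rw [h1, h2] at this; simp at this
    · rw [h1, h2]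
  set x : K := (g : K) ^ i - (g : K) ^ j with hx
  have hlow : ∀ t ≤ k, φ ((g : K) ^ t * x) = 0 := by
    intro t ht
    rw [hx, mul_sub, ← pow_add, ← pow_add, map_sub, add_comm t i, add_comm t j, h' t ht, sub_self]
  have hall : ∀ e : ℕ, φ ((g : K) ^ e * x) = 0 := by
    intro e
    have hint : IsIntegral (ZMod 2) (g : K) := Algebra.IsIntegral.isIntegral _
    have hmonic := minpoly.monic hint
    set p : (ZMod 2)[X] := X ^ e %ₘ minpoly (ZMod 2) (g : K) with hp
    have hdeg : p.natDegree < k + 1 := by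
      have h1 : p.natDegree < (minpoly (ZMod 2) (g : K)).natDegree :=
        Polynomial.natDegree_modByMonic_lt _ hmonic (minpoly.ne_one _ _)
      have h2 := minpoly.natDegree_le (A := ZMod 2) (g : K)
      rw [hrank] at h2
      omega
    have h1 : (g : K) ^ e = aeval (g : K) p := by
      rw [hp, Polynomial.aeval_modByMonic_eq_self_of_root (minpoly.aeval _ _)]
      simp
    rw [h1, Polynomial.aeval_eq_sum_range' hdeg, Finset.sum_mul, map_sum]
    apply Finset.sum_eq_zero
    intro t ht
    rw [smul_mul_assoc, map_smul, hlow t (by rw [Finset.mem_range] at ht; omega), smul_zero]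
  have hx0 : x = 0 := by
    by_contra hne
    have hw : b i0 ≠ 0 := b.ne_zero i0
    have hy : b i0 * x⁻¹ ≠ 0 := mul_ne_zero hw (inv_ne_zero hne)
    have hmem := hg (Units.mk0 _ hy)
    rw [← mem_powers_iff_mem_zpowers] at hmem
    obtain ⟨e, he⟩ := hmem
    have he' : (g : K) ^ e = b i0 * x⁻¹ := by
      have := congrArg (fun y : Kˣ => (y : K)) he
      simpa using this
    have := hall e
    rw [he', mul_assoc, inv_mul_cancel₀ hne, mul_one, hφ] at this
    exact one_ne_zero this
  have hpow : g ^ i = g ^ j := by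
    apply Units.ext
    push_cast
    exact sub_eq_zero.1 hx0
  exact pow_injOn_Iio_orderOf (by rw [hord]; exact hi) (by rw [hord]; exact hj) hpow

end Pool.Agent.Helper13.FacComp
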