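import Pool.Agent.Helper13.FacComp.Pad

namespace Pool.Agent.Helper13.FacComp

open Finset Real

lemma sum_le_log {n t : ℕ} (h : ℕ) (hh : h + 2 * t ≤ n) :
    ∑ s ∈ range h, 1 / (((n - s) - 2 * t + 1 : ℕ) : ℝ)
      ≤ log (((n - 2 * t + 1 : ℕ) : ℝ) / ((n - h - 2 * t + 1 : ℕ) : ℝ)) := by
  induction h with
  | zero =>
    simp only [Finset.range_zero, Finset.sum_empty, Nat.sub_zero]
    rw [div_self (by positivity), Real.log_one]
  | succ h ih =>
    have ih' := ih (by omega)
    rw [Finset.sum_range_succ]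
    obtain ⟨y, hy⟩ : ∃ y, n - h - 2 * t = y + 1 := ⟨n - h - 2 * t - 1, by omega⟩
    have e1 : n - (h + 1) - 2 * t + 1 = y + 1 := by omega
    rw [hy] at ih' ⊢
    rw [e1]
    have h1 : 1 - ((((y + 1 + 1 : ℕ) : ℝ)) / ((y + 1 : ℕ) : ℝ))⁻¹
        ≤ log (((y + 1 + 1 : ℕ) : ℝ) / ((y + 1 : ℕ) : ℝ)) :=
      Real.one_sub_inv_le_log_of_pos (by positivity)
    have h2 : 1 - ((((y + 1 + 1 : ℕ) : ℝ)) / ((y + 1 : ℕ) : ℝ))⁻¹ = 1 / ((y + 1 + 1 : ℕ) : ℝ) := by
      push_cast
      field_simp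
      ring
    rw [h2] at h1
    have h3 : log (((n - 2 * t + 1 : ℕ) : ℝ) / ((y + 1 : ℕ) : ℝ))
        = log (((n - 2 * t + 1 : ℕ) : ℝ) / ((y + 1 + 1 : ℕ) : ℝ))
          + log (((y + 1 + 1 : ℕ) : ℝ) / ((y + 1 : ℕ) : ℝ)) := by
      rw [← Real.log_mul (by positivity) (by positivity)]
      congr 1
      field_simp
    rw [h3]
    linarith

theorem upper {A : Type} [Finite A] (u : ℕ → A) (a : ℝ) (ha : 1 ≤ a)
    (hu : ∀ m : ℕ, (complexity u m : ℝ) ≤ a * m + 1) (n r : ℕ) (hr : 1 ≤ r) :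
    (complexity u (n + 1) : ℝ) - complexity u n
      ≤ 4 * (a + 1) * log (8 * r) + (1 + 1 / r) * (a + 3 / 2) * logb 2 (16 * r * (a + 1)) := by
  have hr' : (1 : ℝ) ≤ r := by exact_mod_cast hr
  have hlog8 : 1 ≤ log (8 * r) := by
    rw [Real.le_log_iff_exp_le (by positivity)]
    have := Real.exp_one_lt_d9
    linarith
  have hlogb : 0 ≤ logb 2 (16 * r * (a + 1)) := by
    apply Real.logb_nonneg (by norm_num)
    nlinarith
  have hP : ∀ m : ℕ, (P (pad u) m : ℝ) ≤ (a + 1) * m + 1 := by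
    intro m
    rw [P_pad]
    push_cast
    have := hu m
    linarith
  have hfirst : 0 ≤ 4 * (a + 1) * log (8 * r) := by positivity
  rcases Nat.eq_zero_or_pos n with hn | hn
  · subst hn
    have h1 := hu 1
    have h2 : (0 : ℝ) ≤ complexity u 0 := Nat.cast_nonneg _
    push_cast at h1
    have h3 : 4 * (a + 1) * 1 ≤ 4 * (a + 1) * log (8 * r) :=
      mul_le_mul_of_nonneg_left hlog8 (by linarith)
    have h4 : 0 ≤ (1 + 1 / (r : ℝ)) * (a + 3 / 2) * logb 2 (16 * r * (a + 1)) := by positivity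
    simp only [zero_add]
    linarith
  have hn' : (1 : ℝ) ≤ n := by exact_mod_cast hn
  have hs : (complexity u (n + 1) : ℝ) - complexity u n ≤ (P (pad u) (n + 1) : ℝ) - P (pad u) n := by
    rw [P_pad, P_pad]
    push_cast
    linarith
  refine hs.trans ?_
  rcases Nat.lt_or_ge n (8 * r) with hnr | hnr
  · -- short words
    have h1 := simpleIneq (pad u) n
    have h2 : (P (pad u) (n + n) : ℝ) ≤ 2 * (a + 1) * n + 1 := by
      have := hP (n + n)
      push_cast at this
      linarith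
    have h3 : (1 : ℝ) ≤ P (pad u) (n + n) := by
      rw [P_pad]
      push_cast
      have : (0 : ℝ) ≤ complexity u (n + n) := Nat.cast_nonneg _
      linarith
    have h4 : (2 * (a + 1) * n + 1 : ℝ) ≤ 16 * r * (a + 1) := by
      have h5 : (n : ℝ) + 1 ≤ 8 * r := by exact_mod_cast hnr
      nlinarith
    have h5 : logb 2 (P (pad u) (n + n) : ℝ) ≤ logb 2 (16 * r * (a + 1)) :=
      Real.logb_le_logb_of_le (by norm_num) (by linarith) (by linarith)
    have h6 : phi (P (pad u) (n + n)) ≤ (2 * (a + 1) * n + 1) * logb 2 (16 * r * (a + 1)) / 2 := by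
      unfold phi
      have h7 : 0 ≤ logb 2 (P (pad u) (n + n) : ℝ) := Real.logb_nonneg (by norm_num) h3
      have : (P (pad u) (n + n) : ℝ) * logb 2 (P (pad u) (n + n) : ℝ)
          ≤ (2 * (a + 1) * n + 1) * logb 2 (16 * r * (a + 1)) :=
        mul_le_mul h2 h5 h7 (by linarith)
      linarith
    have h8 : (2 * (a + 1) * n + 1) * logb 2 (16 * r * (a + 1)) / 2
        ≤ n * ((a + 3 / 2) * logb 2 (16 * r * (a + 1))) := by
      have : (2 * (a + 1) * n + 1) / 2 ≤ n * (a + 3 / 2) := by nlinarith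
      have := mul_le_mul_of_nonneg_right this hlogb
      linarith
    have h9 : (P (pad u) (n + 1) : ℝ) - P (pad u) n ≤ (a + 3 / 2) * logb 2 (16 * r * (a + 1)) := by
      have : (n : ℝ) * ((P (pad u) (n + 1) : ℝ) - P (pad u) n)
          ≤ n * ((a + 3 / 2) * logb 2 (16 * r * (a + 1))) := by linarith
      exact le_of_mul_le_mul_left this (by linarith)
    have h10 : (a + 3 / 2) * logb 2 (16 * r * (a + 1))
        ≤ (1 + 1 / (r : ℝ)) * (a + 3 / 2) * logb 2 (16 * r * (a + 1)) := by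
      have : 0 ≤ 1 / (r : ℝ) * ((a + 3 / 2) * logb 2 (16 * r * (a + 1))) := by positivity
      linarith
    linarith
  · -- long words
    set t := n / (8 * r) with ht
    have ht1 : 1 ≤ t := (Nat.one_le_div_iff (by omega)).2 hnr
    have ht2 : 8 * r * t ≤ n := Nat.mul_div_le n (8 * r)
    have ht3 : n < 8 * r * (t + 1) := by
      have := Nat.lt_mul_div_succ n (by omega : 0 < 8 * r)
      exact this
    have h8t : 8 * t ≤ n := by
      calc 8 * t ≤ 8 * r * t := by nlinarith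
        _ ≤ n := ht2
    obtain ⟨h, hh⟩ : ∃ h, n = h + 4 * t := ⟨n - 4 * t, by omega⟩
    have hmain := mainIneq (pad u) (t := t) (n := n) (h := h) ht1 (by omega)
      (by rw [P_pad]; omega)
    have hlog := sum_le_log (n := n) (t := t) h (by omega)
    have hlog2 : log (((n - 2 * t + 1 : ℕ) : ℝ) / ((n - h - 2 * t + 1 : ℕ) : ℝ)) ≤ log (8 * r) := by
      apply Real.log_le_log (by positivity)
      rw [div_le_iff₀ (by positivity)]
      have e : n - h - 2 * t + 1 = 2 * t + 1 := by omega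
      rw [e]
      have : n - 2 * t + 1 ≤ 8 * r * (2 * t + 1) := by
        have : 8 * r * (t + 1) ≤ 8 * r * (2 * t + 1) := Nat.mul_le_mul_left _ (by omega)
        omega
      exact_mod_cast this
    have hhn : n ≤ 2 * h := by omega
    have hhn' : (n : ℝ) ≤ 2 * h := by exact_mod_cast hhn
    have hhpos : (0 : ℝ) < h := by linarith
    have hrt : (8 : ℝ) * r * t ≤ n := by exact_mod_cast ht2
    have ht1' : (1 : ℝ) ≤ t := by exact_mod_cast ht1
    have hneq : (n : ℝ) = h + 4 * t := by exact_mod_cast hh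
    have hnr' : (8 : ℝ) * r ≤ n := by exact_mod_cast hnr
    have ht3' : (n : ℝ) ≤ 8 * r * (t + 1) := by exact_mod_cast ht3.le
    -- first factor
    have f1 : (P (pad u) (n + 1) : ℝ) ≤ h * (4 * (a + 1)) := by
      have h1 := hP (n + 1)
      push_cast at h1
      have h2 : (n : ℝ) + 2 ≤ 4 * h := by linarith
      nlinarith
    have f2 : (P (pad u) (n + h) : ℝ) ≤ 2 * h * ((1 + 1 / r) * (a + 1)) := by
      have h1 := hP (n + h)
      push_cast at h1
      have h2 : (r : ℝ) * (4 * t + 1) ≤ 2 * h := by nlinarith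
      have h3 : (4 * t + 1 : ℝ) ≤ 2 * h * (1 / r) := by
        rw [mul_one_div, le_div_iff₀ (by linarith)]
        linarith
      have h4 : (a + 1) * (4 * t + 1 : ℝ) ≤ (a + 1) * (2 * h * (1 / r)) :=
        mul_le_mul_of_nonneg_left h3 (by linarith)
      have h5 : 2 * (h : ℝ) * ((1 + 1 / r) * (a + 1)) = 2 * h * (a + 1) + (a + 1) * (2 * h * (1 / r)) := by
        ring
      rw [h5]
      rw [hneq] at h1
      nlinarith
    have f3 : (P (pad u) (n + h + t) : ℝ) / (t + 1) ≤ 16 * r * (a + 1) := by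
      rw [div_le_iff₀ (by positivity)]
      have h1 := hP (n + h + t)
      push_cast at h1
      have h2 : (n : ℝ) + h + t + 1 ≤ 2 * n := by linarith
      have h3 : (a + 1) * ((n : ℝ) + h + t) + 1 ≤ (a + 1) * (2 * n) := by nlinarith
      have h4 : (a + 1) * (2 * n) ≤ (a + 1) * (2 * (8 * r * (t + 1))) :=
        mul_le_mul_of_nonneg_left (by linarith) (by linarith)
      calc (P (pad u) (n + h + t) : ℝ) ≤ (a + 1) * (2 * (8 * r * (t + 1))) := by linarith
        _ = 16 * r * (a + 1) * (t + 1) := by ring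
    have f4 : (0 : ℝ) < (P (pad u) (n + h + t) : ℝ) / (t + 1) := by
      apply div_pos _ (by positivity)
      rw [P_pad]
      have : (0 : ℝ) < (complexity u (n + h + t) + (n + h + t) : ℕ) := by
        exact_mod_cast (by omega : 0 < complexity u (n + h + t) + (n + h + t))
      exact this
    have f5 : logb 2 ((P (pad u) (n + h + t) : ℝ) / (t + 1)) ≤ logb 2 (16 * r * (a + 1)) :=
      Real.logb_le_logb_of_le (by norm_num) f4 f3
    have g1 : (P (pad u) (n + 1) : ℝ) * ∑ s ∈ range h, 1 / (((n - s) - 2 * t + 1 : ℕ) : ℝ)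
        ≤ h * (4 * (a + 1)) * log (8 * r) := by
      have h1 : ∑ s ∈ range h, 1 / (((n - s) - 2 * t + 1 : ℕ) : ℝ) ≤ log (8 * r) := hlog.trans hlog2
      have h2 : 0 ≤ ∑ s ∈ range h, 1 / (((n - s) - 2 * t + 1 : ℕ) : ℝ) :=
        Finset.sum_nonneg fun _ _ => by positivity
      exact mul_le_mul f1 h1 h2 (by positivity)
    have g2 : (P (pad u) (n + h) : ℝ) * logb 2 ((P (pad u) (n + h + t) : ℝ) / (t + 1)) / 2
        ≤ h * ((1 + 1 / r) * (a + 3 / 2) * logb 2 (16 * r * (a + 1))) := by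
      have h1 : (P (pad u) (n + h) : ℝ) * logb 2 ((P (pad u) (n + h + t) : ℝ) / (t + 1))
          ≤ P (pad u) (n + h) * logb 2 (16 * r * (a + 1)) :=
        mul_le_mul_of_nonneg_left f5 (Nat.cast_nonneg _)
      have h2 : (P (pad u) (n + h) : ℝ) * logb 2 (16 * r * (a + 1))
          ≤ 2 * h * ((1 + 1 / r) * (a + 1)) * logb 2 (16 * r * (a + 1)) :=
        mul_le_mul_of_nonneg_right f2 hlogb
      have h3 : 0 ≤ (h : ℝ) * ((1 + 1 / r) * (1 / 2) * logb 2 (16 * r * (a + 1))) := by positivity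
      have h4 : (h : ℝ) * ((1 + 1 / r) * (a + 3 / 2) * logb 2 (16 * r * (a + 1)))
          = h * ((1 + 1 / r) * (a + 1)) * logb 2 (16 * r * (a + 1))
            + (h : ℝ) * ((1 + 1 / r) * (1 / 2) * logb 2 (16 * r * (a + 1))) := by ring
      rw [h4]
      linarith
    have g3 : (h : ℝ) * ((P (pad u) (n + 1) : ℝ) - P (pad u) n)
        ≤ h * (4 * (a + 1) * log (8 * r) + (1 + 1 / r) * (a + 3 / 2) * logb 2 (16 * r * (a + 1))) := by
      have : (h : ℝ) * (4 * (a + 1) * log (8 * r) + (1 + 1 / r) * (a + 3 / 2) * logb 2 (16 * r * (a + 1)))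
          = h * (4 * (a + 1)) * log (8 * r) + h * ((1 + 1 / r) * (a + 3 / 2) * logb 2 (16 * r * (a + 1))) := by
        ring
      rw [this]
      linarith
    exact le_of_mul_le_mul_left g3 hhpos

end Pool.Agent.Helper13.FacComp
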