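import Pool.Agent.Helper13.FacComp.Defs
import Pool.Agent.Helper13.FacComp.Seq

namespace Pool.Agent.Helper13.FacComp

open Finset

section

variable (J k n0 L : ℕ) (hJ : 0 < J) (hn0 : 0 < n0) (c : ℕ → Bool)

/-- The letter of copy `y` at position `s`. -/
def lt (y : Fin J) (s : ℕ) : Fin J × Fin n0 × Bool :=
  (y, ⟨s % n0, Nat.mod_lt _ hn0⟩, if s % n0 < k then c (s / n0 + (k - 1 - s % n0)) else false)

/-- The word. -/
def uu (i : ℕ) : Fin J × Fin n0 × Bool :=
  lt J k n0 hn0 c ⟨(i / L) % J, Nat.mod_lt _ hJ⟩ (i % L)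

/-- Its windows. -/
def wd (m : ℕ) (i : ℕ) : Fin m → Fin J × Fin n0 × Bool := fun k' => uu J k n0 L hJ hn0 c (i + k')

/-- visible bits -/
def vis (r m : ℕ) : Finset ℕ := (range m).filter fun k' => (r + k') % n0 < k

lemma uu_eq {y s : ℕ} (hy : y < J) (hs : s < L) :
    uu J k n0 L hJ hn0 c (y * L + s) = lt J k n0 hn0 c ⟨y, hy⟩ s := by
  have hL : 0 < L := by omega
  have h1 : (y * L + s) / L = y := by
    rw [mul_comm, Nat.mul_add_div hL, Nat.div_eq_of_lt hs, add_zero]
  have h2 : (y * L + s) % L = s := by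
    rw [mul_comm, Nat.mul_add_mod, Nat.mod_eq_of_lt hs]
  simp only [uu, h1, h2, Nat.mod_eq_of_lt hy]

lemma uu_period (i : ℕ) (hL : 0 < L) : uu J k n0 L hJ hn0 c (i + J * L) = uu J k n0 L hJ hn0 c i := by
  have h1 : (i + J * L) / L = i / L + J := by
    rw [Nat.add_mul_div_right _ _ hL]
  have h2 : (i + J * L) % L = i % L := by
    rw [Nat.add_mul_mod_self_right]
  simp only [uu, h1, h2, Nat.add_mod_right]

lemma uu_mod (i : ℕ) (hL : 0 < L) :
    uu J k n0 L hJ hn0 c (i % (J * L)) = uu J k n0 L hJ hn0 c i := by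
  have h : ∀ e i : ℕ, uu J k n0 L hJ hn0 c (i + e * (J * L)) = uu J k n0 L hJ hn0 c i := by
    intro e
    induction e with
    | zero => intro i; simp
    | succ e ih =>
      intro i
      rw [Nat.succ_mul, ← add_assoc, uu_period _ _ _ _ _ _ _ _ hL, ih]
  conv_rhs => rw [← Nat.mod_add_div i (J * L)]
  rw [mul_comm (J * L) (i / (J * L)), h]

lemma factors_eq (m : ℕ) (hL : 0 < L) :
    factors (uu J k n0 L hJ hn0 c) m
      = (((range (J * L)).image (wd J k n0 L hJ hn0 c m) : Finset _) : Set _) := by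
  have hJL : 0 < J * L := Nat.mul_pos hJ hL
  ext w
  rw [Finset.coe_image, Set.mem_image]
  constructor
  · rintro ⟨i, rfl⟩
    refine ⟨i % (J * L), ?_, ?_⟩
    · rw [Finset.mem_coe, Finset.mem_range]
      exact Nat.mod_lt _ hJL
    · funext k'
      simp only [wd]
      rw [← uu_mod J k n0 L hJ hn0 c (i % (J * L) + k') hL, Nat.mod_add_mod,
        uu_mod J k n0 L hJ hn0 c _ hL]
  · rintro ⟨i, -, rfl⟩
    exact ⟨i, rfl⟩

lemma complexity_eq (m : ℕ) (hL : 0 < L) :
    complexity (uu J k n0 L hJ hn0 c) m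
      = ((range (J * L)).image (wd J k n0 L hJ hn0 c m)).card := by
  rw [complexity, factors_eq J k n0 L hJ hn0 c m hL, Set.ncard_coe_finset]

/-- Letters inside one copy. -/
lemma wd_apply {m y q r : ℕ} (hy : y < J) (hm : q * n0 + r + m ≤ L) (k' : Fin m) :
    wd J k n0 L hJ hn0 c m (y * L + (q * n0 + r)) k' =
      (⟨y, hy⟩, ⟨(r + k') % n0, Nat.mod_lt _ hn0⟩,
        if (r + k') % n0 < k then c (q + (r + k') / n0 + (k - 1 - (r + k') % n0)) else false) := by
  have hk := k'.2
  have e : y * L + (q * n0 + r) + (k' : ℕ) = y * L + (q * n0 + (r + k')) := by ring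
  simp only [wd]
  rw [e, uu_eq J k n0 L hJ hn0 c hy (by omega)]
  have h1 : (q * n0 + (r + (k' : ℕ))) % n0 = (r + k') % n0 := by
    rw [mul_comm, Nat.mul_add_mod]
  have h2 : (q * n0 + (r + (k' : ℕ))) / n0 = q + (r + k') / n0 := by
    rw [mul_comm, Nat.mul_add_div hn0]
  simp only [lt, h1, h2]

/-- Non-crossing windows of one phase. -/
lemma card_phase_le {m y r : ℕ} (hy : y < J) (S : Finset ℕ) (hS : ∀ q ∈ S, q * n0 + r + m ≤ L) :
    (S.image fun q => wd J k n0 L hJ hn0 c m (y * L + (q * n0 + r))).card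
      ≤ 2 ^ (vis k n0 r m).card := by
  classical
  let G : (vis k n0 r m → Bool) → (Fin m → Fin J × Fin n0 × Bool) := fun f k' =>
    (⟨y, hy⟩, ⟨(r + k') % n0, Nat.mod_lt _ hn0⟩,
      if h : (k' : ℕ) ∈ vis k n0 r m then f ⟨k', h⟩ else false)
  have hsub : (S.image fun q => wd J k n0 L hJ hn0 c m (y * L + (q * n0 + r))) ⊆
      Finset.univ.image G := by
    intro w hw
    rw [Finset.mem_image] at hw
    obtain ⟨q, hq, rfl⟩ := hw
    rw [Finset.mem_image]
    refine ⟨fun z => c (q + (r + z.1) / n0 + (k - 1 - (r + z.1) % n0)), Finset.mem_univ _, ?_⟩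
    funext k'
    rw [wd_apply J k n0 L hJ hn0 c hy (hS q hq)]
    simp only [G]
    congr 2
    by_cases h : (r + (k' : ℕ)) % n0 < k
    · rw [if_pos h, dif_pos]
      simp only [vis, Finset.mem_filter, Finset.mem_range]
      exact ⟨k'.2, h⟩
    · rw [if_neg h, dif_neg]
      simp only [vis, Finset.mem_filter, Finset.mem_range, not_and]
      exact fun _ => h
  calc _ ≤ (Finset.univ.image G).card := Finset.card_le_card hsub
    _ ≤ (Finset.univ : Finset (vis k n0 r m → Bool)).card := Finset.card_image_le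
    _ = _ := by simp

/-- Upper bound for the complexity. -/
lemma complexity_le {m M : ℕ} (hL : L = n0 * M) (hm1 : 1 ≤ m) (hmL : m ≤ L) :
    complexity (uu J k n0 L hJ hn0 c) m
      ≤ J * (m - 1) + J * ∑ r ∈ range n0, min (2 ^ (vis k n0 r m).card) M := by
  classical
  have hLpos : 0 < L := by omega
  rw [complexity_eq J k n0 L hJ hn0 c m hLpos]
  set NC : Finset (Fin m → Fin J × Fin n0 × Bool) := (range J ×ˢ range n0).biUnion fun p =>
    ((range M).filter fun q => q * n0 + p.2 + m ≤ L).image
      fun q => wd J k n0 L hJ hn0 c m (p.1 * L + (q * n0 + p.2)) with hNC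
  set CR : Finset (Fin m → Fin J × Fin n0 × Bool) := (range J ×ˢ range (m - 1)).image fun p =>
    wd J k n0 L hJ hn0 c m (p.1 * L + (L - 1 - p.2)) with hCR
  have hsub : (range (J * L)).image (wd J k n0 L hJ hn0 c m) ⊆ CR ∪ NC := by
    intro w hw
    rw [Finset.mem_image] at hw
    obtain ⟨i, hi, rfl⟩ := hw
    rw [Finset.mem_range] at hi
    have hy : i / L < J := Nat.div_lt_of_lt_mul (by rwa [mul_comm] at hi)
    have hs : i % L < L := Nat.mod_lt _ hLpos
    have hi' : i = (i / L) * L + i % L := by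
      rw [mul_comm]; exact (Nat.div_add_mod i L).symm
    rw [Finset.mem_union]
    rcases Nat.lt_or_ge L (i % L + m) with hc | hc
    · left
      rw [hCR, Finset.mem_image]
      refine ⟨(i / L, L - 1 - i % L), ?_, ?_⟩
      · rw [Finset.mem_product, Finset.mem_range, Finset.mem_range]
        exact ⟨hy, by simp only; omega⟩
      · simp only
        congr 1
        have : L - 1 - (L - 1 - i % L) = i % L := by omega
        rw [this]
        exact hi'.symm
    · right
      rw [hNC, Finset.mem_biUnion]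
      have hq : i % L / n0 < M := Nat.div_lt_of_lt_mul (by rw [← hL]; exact hs)
      have hdm : (i % L / n0) * n0 + (i % L) % n0 = i % L := by
        rw [mul_comm]; exact Nat.div_add_mod _ _
      refine ⟨(i / L, (i % L) % n0), ?_, ?_⟩
      · rw [Finset.mem_product, Finset.mem_range, Finset.mem_range]
        exact ⟨hy, Nat.mod_lt _ hn0⟩
      · rw [Finset.mem_image]
        refine ⟨i % L / n0, ?_, ?_⟩
        · rw [Finset.mem_filter, Finset.mem_range]
          refine ⟨hq, ?_⟩
          simp only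
          rw [hdm]
          exact hc
        · simp only
          rw [hdm, ← hi']
  have hCRc : CR.card ≤ J * (m - 1) := by
    rw [hCR]
    refine Finset.card_image_le.trans ?_
    rw [Finset.card_product, Finset.card_range, Finset.card_range]
  have hNCc : NC.card ≤ J * ∑ r ∈ range n0, min (2 ^ (vis k n0 r m).card) M := by
    rw [hNC]
    refine Finset.card_biUnion_le.trans ?_
    rw [Finset.sum_product]
    calc _ ≤ ∑ y ∈ range J, ∑ r ∈ range n0, min (2 ^ (vis k n0 r m).card) M := by
          apply Finset.sum_le_sum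
          intro y hy
          apply Finset.sum_le_sum
          intro r hr
          rw [Finset.mem_range] at hy
          apply le_min
          · apply card_phase_le J k n0 L hJ hn0 c hy
            intro q hq
            exact (Finset.mem_filter.1 hq).2
          · refine Finset.card_image_le.trans ?_
            refine (Finset.card_filter_le _ _).trans ?_
            rw [Finset.card_range]
      _ = _ := by rw [Finset.sum_const, Finset.card_range, smul_eq_mul]
  calc _ ≤ (CR ∪ NC).card := Finset.card_le_card hsub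
    _ ≤ CR.card + NC.card := Finset.card_union_le _ _
    _ ≤ _ := by omega

end

end Pool.Agent.Helper13.FacComp
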